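import Pool.Agent.H11.KW.Hil

/-!
# [H11 KW CNT] Sum of the Kloosterman sums over all characters and a hyperelliptic curve

Proof.  Put `A = algebraMap a`, `B = algebraMap b` and let `N` be the number of `x ≠ 0` in `K` with
`Tr(A x + B x⁻¹) = 0`.  Orthogonality over `t : ZMod p`:
`∑_t kf(trc ψ)(tA)(tB) = ∑_{x ≠ 0} ∑_t ψ(t Tr(A x + B x⁻¹)) = p N` (`ψ ≠ 1` on `ZMod p`, so
`∑_t ψ(t w) = p [w = 0]`).  The term `t = 0` is `|K| - 1`.  By `card_artin_schreier`, `p N` is the number
of pairs `(x, y)`, `x ≠ 0`, `y^p - y = A x + B x⁻¹`; for fixed `y`, `v = y^p - y`, the number of `x` is the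
number of roots of `A x^2 - v x + B` (`B ≠ 0` excludes `x = 0`), which is the number of `w` with
`w^2 = v^2 - 4 A B` (`w = 2 A x - v`, `2 A ≠ 0`), i.e. `1 + χ(v^2 - 4AB)`
(`quadraticChar_card_sqrts`, `ringChar K = p ≠ 2`).  So `p N = |K| + ∑_y χ(...)` and the claim follows.
-/

namespace Pool.Agent.H11.KW

open Finset

private theorem charSum {p : ℕ} [Fact p.Prime] (ψ : AddChar (ZMod p) ℂ) (hψ : ψ ≠ 1) (w : ZMod p) :
    ∑ t : ZMod p, ψ (t * w) = if w = 0 then (p : ℂ) else 0 := by
  by_cases hw : w = 0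
  · subst hw
    simp [ZMod.card]
  · rw [if_neg hw]
    have h1 : ∑ t : ZMod p, ψ (t * w) = ∑ t : ZMod p, ψ t :=
      Fintype.sum_bijective (fun t => t * w) (mulRight_bijective₀ w hw) _ _ (fun t => rfl)
    rw [h1]
    exact AddChar.sum_eq_zero_of_ne_one hψ

private theorem rootCount {K : Type} [Field K] [Fintype K] [DecidableEq K] (hc : ringChar K ≠ 2)
    (A B : K) (hA : A ≠ 0) (hB : B ≠ 0) (v : K) :
    ((univ.filter (fun x : K => x ≠ 0 ∧ v = A * x + B * x⁻¹)).card : ℤ) =
      quadraticChar K (v ^ 2 - 4 * (A * B)) + 1 := by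
  have h2 : (2 : K) ≠ 0 := Ring.two_ne_zero hc
  rw [← quadraticChar_card_sqrts hc]
  norm_cast
  refine Finset.card_bij' (fun x _ => 2 * A * x - v) (fun w _ => (w + v) / (2 * A)) ?_ ?_ ?_ ?_
  · intro x hx
    simp only [mem_filter, mem_univ, true_and] at hx
    obtain ⟨hx0, hv⟩ := hx
    simp only [Set.mem_toFinset, Set.mem_ofPred_eq]
    subst hv
    field_simp
    ring
  · intro w hw
    simp only [Set.mem_toFinset, Set.mem_ofPred_eq] at hw
    have h2A : 2 * A ≠ 0 := mul_ne_zero h2 hA
    have h4 : (w + v) * (v - w) = 4 * (A * B) := by linear_combination -hw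
    have hne : w + v ≠ 0 := by
      intro h
      rw [h, zero_mul] at h4
      have : (4 : K) * (A * B) ≠ 0 := by
        have : (4 : K) = 2 * 2 := by norm_num
        rw [this]
        exact mul_ne_zero (mul_ne_zero h2 h2) (mul_ne_zero hA hB)
      exact this h4.symm
    simp only [mem_filter, mem_univ, true_and]
    refine ⟨div_ne_zero hne h2A, ?_⟩
    field_simp
    linear_combination -hw
  · intro x _
    field_simp
    ring
  · intro w _
    field_simp
    ring

theorem sum_kf {p : ℕ} [Fact p.Prime] (hp : p ≠ 2) {K : Type} [Field K] [Fintype K]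
    [DecidableEq K] [Algebra (ZMod p) K] (ψ : AddChar (ZMod p) ℂ) (hψ : ψ ≠ 1) (a b : ZMod p)
    (ha : a ≠ 0) (hb : b ≠ 0) :
    ∑ t ∈ (univ : Finset (ZMod p)).erase 0, kf (trc (ZMod p) K ψ)
      (algebraMap (ZMod p) K (t * a)) (algebraMap (ZMod p) K (t * b)) =
      1 + ∑ y : K, ((quadraticChar K ((y ^ p - y) ^ 2 - 4 * algebraMap (ZMod p) K (a * b)) : ℤ) : ℂ)
      := by
  classical
  have : CharP K p := charP_of_injective_algebraMap (algebraMap (ZMod p) K).injective p
  have hc : ringChar K ≠ 2 := by rw [ringChar.eq K p]; exact hp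
  set A : K := algebraMap (ZMod p) K a with hA
  set B : K := algebraMap (ZMod p) K b with hB
  have hA0 : A ≠ 0 := (map_ne_zero_iff _ (algebraMap (ZMod p) K).injective).mpr ha
  have hB0 : B ≠ 0 := (map_ne_zero_iff _ (algebraMap (ZMod p) K).injective).mpr hb
  -- each term
  have hterm : ∀ t : ZMod p, kf (trc (ZMod p) K ψ)
      (algebraMap (ZMod p) K (t * a)) (algebraMap (ZMod p) K (t * b)) =
      ∑ x : K, if x = 0 then 0 else ψ (t * Algebra.trace (ZMod p) K (A * x + B * x⁻¹)) := by
    intro t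
    unfold kf
    refine Finset.sum_congr rfl fun x _ => ?_
    by_cases hx : x = 0
    · simp [hx]
    · rw [if_neg hx, if_neg hx]
      have h1 : algebraMap (ZMod p) K (t * a) * x + algebraMap (ZMod p) K (t * b) * x⁻¹ =
          t • (A * x + B * x⁻¹) := by
        rw [Algebra.smul_def, map_mul, map_mul]
        ring
      rw [h1]
      unfold trc
      simp only [AddChar.compAddMonoidHom_apply, LinearMap.toAddMonoidHom_coe, map_smul,
        smul_eq_mul]
  have hall : ∑ t : ZMod p, kf (trc (ZMod p) K ψ)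
      (algebraMap (ZMod p) K (t * a)) (algebraMap (ZMod p) K (t * b)) =
      (Fintype.card K : ℂ) +
        ∑ y : K, ((quadraticChar K ((y ^ p - y) ^ 2 - 4 * (A * B)) : ℤ) : ℂ) := by
    simp_rw [hterm]
    rw [Finset.sum_comm]
    have h1 : ∀ x : K, (∑ t : ZMod p, if x = 0 then (0 : ℂ) else
        ψ (t * Algebra.trace (ZMod p) K (A * x + B * x⁻¹))) =
        ∑ y : K, if (x ≠ 0 ∧ y ^ p - y = A * x + B * x⁻¹) then (1 : ℂ) else 0 := by
      intro x
      by_cases hx : x = 0
      · simp [hx]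
      · have h2 := card_artin_schreier (p := p) (A * x + B * x⁻¹)
        rw [Nat.card_eq_fintype_card, Fintype.card_subtype] at h2
        simp only [if_neg hx]
        rw [charSum ψ hψ]
        simp only [ne_eq, hx, not_false_eq_true, true_and]
        rw [Finset.sum_boole, h2]
        split_ifs <;> simp
    rw [Finset.sum_congr rfl (fun x _ => h1 x), Finset.sum_comm]
    have h3 : ∀ y : K, (∑ x : K, if (x ≠ 0 ∧ y ^ p - y = A * x + B * x⁻¹) then (1 : ℂ) else 0) =
        1 + ((quadraticChar K ((y ^ p - y) ^ 2 - 4 * (A * B)) : ℤ) : ℂ) := by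
      intro y
      rw [Finset.sum_boole]
      have h4 := rootCount hc A B hA0 hB0 (y ^ p - y)
      have h5 : ((univ.filter (fun x : K => x ≠ 0 ∧ y ^ p - y = A * x + B * x⁻¹)).card : ℂ) =
          (((univ.filter (fun x : K => x ≠ 0 ∧ y ^ p - y = A * x + B * x⁻¹)).card : ℤ) : ℂ) := by
        push_cast
        rfl
      rw [h5, h4]
      push_cast
      ring
    rw [Finset.sum_congr rfl (fun y _ => h3 y), Finset.sum_add_distrib]
    simp
  have hzero : kf (trc (ZMod p) K ψ)
      (algebraMap (ZMod p) K (0 * a)) (algebraMap (ZMod p) K (0 * b)) =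
      (Fintype.card K : ℂ) - 1 := by
    rw [hterm 0]
    simp only [zero_mul, AddChar.map_zero_eq_one]
    have : ∀ x : K, (if x = 0 then (0 : ℂ) else 1) = 1 - if x = 0 then 1 else 0 := by
      intro x; split_ifs <;> simp
    rw [Finset.sum_congr rfl (fun x _ => this x), Finset.sum_sub_distrib]
    simp
  have hsplit := Finset.add_sum_erase (univ : Finset (ZMod p)) (fun t => kf (trc (ZMod p) K ψ)
      (algebraMap (ZMod p) K (t * a)) (algebraMap (ZMod p) K (t * b))) (mem_univ 0)
  rw [hall, hzero] at hsplit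
  rw [map_mul (algebraMap (ZMod p) K) a b]
  linear_combination hsplit

end Pool.Agent.H11.KW
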