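import Mathlib

/-!
# Weil's bound for Kloosterman sums, elementary (helper11): definitions

`kf ψ a b` is the Kloosterman sum over a finite field `K` for the additive character `ψ`.
-/

namespace Pool.Agent.H11.KW

open Finset

open Classical in
/-- Kloosterman sum over a finite field -/
noncomputable def kf {K : Type} [Field K] [Fintype K] (ψ : AddChar K ℂ) (a b : K) : ℂ :=
  ∑ x : K, if x = 0 then 0 else ψ (a * x + b * x⁻¹)

/-- the additive character `ψ ∘ Tr` of an extension -/
noncomputable def trc (K L : Type) [Field K] [Field L] [Algebra K L] (ψ : AddChar K ℂ) :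
    AddChar L ℂ :=
  ψ.compAddMonoidHom (Algebra.trace K L).toAddMonoidHom

/-- Kloosterman sum modulo `q` -/
noncomputable def kz (q : ℕ) [NeZero q] (u v : ZMod q) : ℂ :=
  ∑ x : (ZMod q)ˣ, ZMod.stdAddChar (u * (x : ZMod q) + v * ((x⁻¹ : (ZMod q)ˣ) : ZMod q))

end Pool.Agent.H11.KW
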