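import Pool.Agent.H11.KW.Quad

/-!
# [H11 KW EXT] The Kloosterman sum over the quadratic extension

Proof.  `S_K^2 = ∑_{x,y ≠ 0} ψ(a (x+y) + b (x+y)/(x y))`: group by `s = x + y`, `m = x y ≠ 0`; for given
`(s, m)` the pairs are `(x, s - x)` with `x^2 - s x + m = 0`, so
`S_K^2 = ∑_s ∑_{m ≠ 0} A(s,m) ψ(a s + b s / m)`, `A = Nat.card {x : K // x^2 - s x + m = 0}`.
`S_L = ∑_{x ≠ 0} ψ(Tr(a x + b x⁻¹)) = ∑_{x ≠ 0} ψ(a Tr x + b Tr(x⁻¹))` and `Tr(x⁻¹) = Tr x / N x` (with
`q = |K|`: `x⁻¹ + x^(-q) = (x^q + x)/x^(q+1)`); so `S_L = ∑_s ∑_{m ≠ 0} B(s,m) ψ(a s + b s / m)` with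
`B = Nat.card {x : L // Tr x = s ∧ N x = m}` (`x ≠ 0 ↔ N x ≠ 0`).  By `cnt_quad`
`S_K^2 + S_L = 2 ∑_s ψ(a s) ∑_{m ≠ 0} ψ(b s / m)`.  The inner sum is `q [s = 0] - 1`
(`m ↦ b s / m` permutes `K \ {0}` if `s ≠ 0`; `AddChar.sum_eq_zero_of_ne_one`), so the total is
`2 (q - ∑_s ψ(a s)) = 2 q` as `a ≠ 0`.
-/

namespace Pool.Agent.H11.KW

open Finset

open Classical in
private lemma sum_grp {ι κ : Type} [Fintype ι] [Fintype κ] (g : ι → κ) (f : κ → ℂ) :
    ∑ i, f (g i) = ∑ c, (Nat.card {i // g i = c} : ℂ) * f c := by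
  rw [← Finset.sum_fiberwise Finset.univ g]
  refine Finset.sum_congr rfl fun c _ => ?_
  rw [Finset.sum_congr rfl (g := fun _ => f c)
    (fun i hi => by rw [(Finset.mem_filter.mp hi).2]), Finset.sum_const, nsmul_eq_mul,
    Nat.card_eq_fintype_card, Fintype.card_subtype]

open Classical in
private noncomputable def ff {K : Type} [Field K] (ψ : AddChar K ℂ) (a b : K) (c : K × K) : ℂ :=
  if c.2 = 0 then 0 else ψ (a * c.1 + b * (c.1 / c.2))

private lemma sq_eq {K : Type} [Field K] [Fintype K] (ψ : AddChar K ℂ) (a b : K) :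
    (kf ψ a b) ^ 2 = ∑ c : K × K,
      (Nat.card {x : K // x ^ 2 - c.1 * x + c.2 = 0} : ℂ) * ff ψ a b c := by
  classical
  have h1 : (kf ψ a b) ^ 2 = ∑ z : K × K, ff ψ a b (z.1 + z.2, z.1 * z.2) := by
    rw [sq, kf, Finset.sum_mul_sum, ← Finset.univ_product_univ, Finset.sum_product]
    refine Finset.sum_congr rfl fun x _ => Finset.sum_congr rfl fun y _ => ?_
    by_cases hx : x = 0
    · simp [hx, ff]
    by_cases hy : y = 0
    · simp [hy, ff]
    simp only [hx, hy, if_false, ff, mul_eq_zero, or_self]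
    rw [← AddChar.map_add_eq_mul]
    congr 1
    field_simp
    ring
  rw [h1, sum_grp (fun z : K × K => (z.1 + z.2, z.1 * z.2)) (ff ψ a b)]
  refine Finset.sum_congr rfl fun c _ => ?_
  congr 2
  refine Nat.card_congr ⟨fun z => ⟨z.1.1, ?_⟩, fun x => ⟨(x.1, c.1 - x.1), ?_⟩, ?_, ?_⟩
  · have h := z.2
    simp only [Prod.ext_iff] at h
    rw [← h.1, ← h.2]
    ring
  · have h := x.2
    simp only [Prod.ext_iff]
    refine ⟨by ring, ?_⟩
    linear_combination -h
  · rintro ⟨⟨x, y⟩, h⟩
    simp only [Prod.ext_iff] at h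
    simp only [Subtype.mk.injEq, Prod.mk.injEq, true_and]
    rw [← h.1]
    ring
  · rintro ⟨x, h⟩
    rfl

private lemma sumL {K L : Type} [Field K] [Fintype K] [Field L] [Fintype L] [Algebra K L]
    (h2 : Module.finrank K L = 2) (ψ : AddChar K ℂ) (a b : K) :
    kf (trc K L ψ) (algebraMap K L a) (algebraMap K L b) = ∑ c : K × K,
      (Nat.card {x : L // Algebra.trace K L x = c.1 ∧ Algebra.norm K x = c.2} : ℂ) *
        ff ψ a b c := by
  classical
  have : Module.Finite K L := Module.Finite.of_finite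
  have h1 : kf (trc K L ψ) (algebraMap K L a) (algebraMap K L b) =
      ∑ x : L, ff ψ a b (Algebra.trace K L x, Algebra.norm K x) := by
    rw [kf]
    refine Finset.sum_congr rfl fun x _ => ?_
    by_cases hx : x = 0
    · simp [hx, ff]
    have hN : Algebra.norm K x ≠ 0 := by
      rwa [Ne, Algebra.norm_eq_zero_iff]
    simp only [hx, if_false, ff, hN]
    have hT : Algebra.trace K L (x⁻¹) = Algebra.trace K L x / Algebra.norm K x := by
      rw [eq_div_iff hN]
      apply FaithfulSMul.algebraMap_injective K L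
      rw [map_mul, FiniteField.algebraMap_trace_eq_sum_pow,
        FiniteField.algebraMap_trace_eq_sum_pow, FiniteField.algebraMap_norm_eq_prod_pow, h2]
      simp only [Finset.sum_range_succ, Finset.prod_range_succ, Finset.sum_range_zero,
        Finset.prod_range_zero, pow_zero, pow_one, zero_add, one_mul, inv_pow]
      have hxq : x ^ Nat.card K ≠ 0 := pow_ne_zero _ hx
      field_simp
      ring
    have : trc K L ψ (algebraMap K L a * x + algebraMap K L b * x⁻¹) =
        ψ (Algebra.trace K L (algebraMap K L a * x + algebraMap K L b * x⁻¹)) := rfl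
    rw [this, map_add, ← Algebra.smul_def, ← Algebra.smul_def, map_smul, map_smul, hT,
      smul_eq_mul, smul_eq_mul]
  rw [h1, sum_grp (fun x : L => (Algebra.trace K L x, Algebra.norm K x)) (ff ψ a b)]
  refine Finset.sum_congr rfl fun c _ => ?_
  congr 2
  refine Nat.card_congr (Equiv.subtypeEquivRight fun x => ?_)
  rw [Prod.ext_iff]

private lemma sum_ff {K : Type} [Field K] [Fintype K] (ψ : AddChar K ℂ) (hψ : ψ ≠ 1) (a b : K)
    (ha : a ≠ 0) (hb : b ≠ 0) : ∑ c : K × K, ff ψ a b c = (Fintype.card K : ℂ) := by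
  classical
  have key : ∀ u : K, u ≠ 0 → ∑ m : K, ψ (u * m) = 0 := by
    intro u hu
    rw [← AddChar.sum_eq_zero_of_ne_one hψ]
    exact Fintype.sum_bijective (fun m => u * m) (mulLeft_bijective₀ u hu) _ _ (fun m => rfl)
  have inner : ∀ s : K, ∑ m : K, (if m = 0 then (0 : ℂ) else ψ (b * (s / m))) =
      (if s = 0 then (Fintype.card K : ℂ) else 0) - 1 := by
    intro s
    by_cases hs : s = 0
    · subst hs
      simp only [zero_div, mul_zero, AddChar.map_zero_eq_one, if_true]
      rw [Finset.sum_ite, Finset.sum_const_zero, zero_add, Finset.sum_const, nsmul_eq_mul, mul_one,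
        Finset.filter_ne' , Finset.card_erase_of_mem (Finset.mem_univ _), Finset.card_univ]
      rw [Nat.cast_sub Fintype.card_pos]
      simp
    · simp only [hs, if_false]
      have h3 : ∑ m : K, ψ (b * s * m⁻¹) = 0 := by
        rw [← key (b * s) (mul_ne_zero hb hs)]
        exact Fintype.sum_bijective (fun m : K => m⁻¹) inv_involutive.bijective _ _
          (fun m => rfl)
      have h4 : ∑ m : K, (if m = 0 then (0 : ℂ) else ψ (b * (s / m))) =
          ∑ m : K, ψ (b * s * m⁻¹) - 1 := by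
        rw [← Finset.add_sum_erase Finset.univ _ (Finset.mem_univ (0 : K)),
          ← Finset.add_sum_erase Finset.univ (fun m : K => ψ (b * s * m⁻¹))
            (Finset.mem_univ (0 : K))]
        simp only [if_true, zero_add, inv_zero, mul_zero, AddChar.map_zero_eq_one,
          add_sub_cancel_left]
        refine Finset.sum_congr rfl fun m hm => ?_
        rw [if_neg (Finset.ne_of_mem_erase hm), div_eq_mul_inv, mul_assoc]
      rw [h4, h3]
  rw [← Finset.univ_product_univ, Finset.sum_product]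
  have : ∀ s : K, ∑ m : K, ff ψ a b (s, m) =
      ψ (a * s) * ((if s = 0 then (Fintype.card K : ℂ) else 0) - 1) := by
    intro s
    rw [← inner s, Finset.mul_sum]
    refine Finset.sum_congr rfl fun m _ => ?_
    by_cases hm : m = 0
    · simp [ff, hm]
    · simp only [ff, hm, if_false, AddChar.map_add_eq_mul]
  rw [Finset.sum_congr rfl fun s _ => this s]
  simp only [mul_sub, mul_one, Finset.sum_sub_distrib, key a ha, sub_zero, mul_ite, mul_zero,
    Finset.sum_ite_eq', Finset.mem_univ, if_true, AddChar.map_zero_eq_one, one_mul]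

theorem kf_ext {K L : Type} [Field K] [Fintype K] [Field L] [Fintype L] [Algebra K L]
    (h2 : Module.finrank K L = 2) (hc : (2 : K) ≠ 0) (ψ : AddChar K ℂ) (hψ : ψ ≠ 1) (a b : K)
    (ha : a ≠ 0) (hb : b ≠ 0) :
    kf (trc K L ψ) (algebraMap K L a) (algebraMap K L b) =
      2 * (Fintype.card K : ℂ) - (kf ψ a b) ^ 2 := by
  rw [eq_sub_iff_add_eq, sq_eq, sumL h2, ← sum_ff ψ hψ a b ha hb, Finset.mul_sum,
    ← Finset.sum_add_distrib]
  refine Finset.sum_congr rfl fun c _ => ?_
  have h := cnt_quad (L := L) h2 hc c.1 c.2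
  have h' : (Nat.card {x : K // x ^ 2 - c.1 * x + c.2 = 0} : ℂ) +
      (Nat.card {x : L // Algebra.trace K L x = c.1 ∧ Algebra.norm K x = c.2} : ℂ) = 2 := by
    exact_mod_cast h
  rw [← h']
  ring

end Pool.Agent.H11.KW
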