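import Pool.Agent.H11.KW.Defs

/-!
# [H11 KW HIL] The equation y^p - y = u in a finite field

Proof.  `φ(y) = y^p - y` is additive on `K` (Frobenius), with kernel `{y : y^p = y}` = image of `ZMod p`
(the polynomial `X^p - X` has at most `p` roots and the `p` elements of the prime field are roots): `p`
elements.  `Tr(y^p) = Tr(y)` (the trace is invariant under the Frobenius automorphism:
`algebraMap (Tr y) = ∑_{i<n} y^(p^i)` by `FiniteField.algebraMap_trace_eq_sum_pow` and `y^(p^n) = y`), so
the image of `φ` lies in `ker Tr`.  `Tr` is surjective (`Algebra.trace_surjective`), so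
`|ker Tr| = |K|/p = |im φ|`, hence `im φ = ker Tr`; nonempty fibres of `φ` are cosets of the kernel, so
have `p` elements.
-/

namespace Pool.Agent.H11.KW

open Finset

theorem card_artin_schreier {p : ℕ} [Fact p.Prime] {K : Type} [Field K] [Fintype K]
    [Algebra (ZMod p) K] (u : K) :
    Nat.card {y : K // y ^ p - y = u} = if Algebra.trace (ZMod p) K u = 0 then p else 0 := by
  classical
  have hp : p.Prime := Fact.out
  haveI : FiniteDimensional (ZMod p) K := Module.Finite.of_finite
  obtain ⟨F, hF⟩ : ∃ F : K ≃ₐ[ZMod p] K, ∀ y, F y = y ^ p := by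
    refine ⟨FiniteField.frobeniusAlgEquivOfAlgebraic (ZMod p) K, fun y => ?_⟩
    have h := congrFun (FiniteField.coe_frobeniusAlgEquivOfAlgebraic (ZMod p) K) y
    rw [h]
    show y ^ Fintype.card (ZMod p) = y ^ p
    rw [ZMod.card]
  obtain ⟨φ, hφ⟩ : ∃ φ : K →ₗ[ZMod p] K, ∀ y, φ y = y ^ p - y := by
    refine ⟨F.toLinearMap - LinearMap.id, fun y => ?_⟩
    rw [LinearMap.sub_apply]
    show F y - y = _
    rw [hF]
  -- the kernel has at most p elements
  have hcardk : Nat.card (LinearMap.ker φ) ≤ p := by
    have hne : (Polynomial.X ^ p - Polynomial.X : Polynomial K) ≠ 0 := by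
      intro h0
      have h1 := FiniteField.X_pow_card_sub_X_natDegree_eq K hp.one_lt
      rw [h0, Polynomial.natDegree_zero] at h1
      exact hp.ne_zero h1.symm
    have h1 : (Finset.univ.filter fun y : K => y ∈ LinearMap.ker φ) ⊆
        (Polynomial.X ^ p - Polynomial.X : Polynomial K).roots.toFinset := by
      intro y hy
      rw [Finset.mem_filter] at hy
      rw [Multiset.mem_toFinset, Polynomial.mem_roots hne]
      have h2 := LinearMap.mem_ker.1 hy.2
      rw [hφ] at h2
      simpa [Polynomial.IsRoot] using h2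
    have h2 : Nat.card (LinearMap.ker φ) =
        (Finset.univ.filter fun y : K => y ∈ LinearMap.ker φ).card := by
      rw [Nat.card_eq_fintype_card]
      exact Fintype.card_subtype _
    rw [h2]
    refine (Finset.card_le_card h1).trans ((Multiset.toFinset_card_le _).trans
      ((Polynomial.card_roots' _).trans ?_))
    rw [FiniteField.X_pow_card_sub_X_natDegree_eq K hp.one_lt]
  have hpw : Nat.card (LinearMap.ker φ) = p ^ Module.finrank (ZMod p) (LinearMap.ker φ) := by
    rw [Module.natCard_eq_pow_finrank (K := ZMod p), Nat.card_zmod]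
  have hle1 : Module.finrank (ZMod p) (LinearMap.ker φ) ≤ 1 := by
    rw [hpw] at hcardk
    by_contra hcon
    push Not at hcon
    have h3 : p ^ 2 ≤ p ^ Module.finrank (ZMod p) (LinearMap.ker φ) :=
      Nat.pow_le_pow_right hp.pos hcon
    have h4 : p ^ 2 = p * p := sq p
    have h5 := hp.two_le
    nlinarith
  have hrank1 := LinearMap.finrank_range_add_finrank_ker φ
  have hrank2 := LinearMap.finrank_range_add_finrank_ker (Algebra.trace (ZMod p) K)
  have hsurj : LinearMap.range (Algebra.trace (ZMod p) K) = ⊤ :=
    LinearMap.range_eq_top.2 (Algebra.trace_surjective (ZMod p) K)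
  rw [hsurj, finrank_top, Module.finrank_self] at hrank2
  have hsub : LinearMap.range φ ≤ LinearMap.ker (Algebra.trace (ZMod p) K) := by
    rintro _ ⟨y, rfl⟩
    rw [LinearMap.mem_ker, hφ, map_sub, ← hF, Algebra.trace_eq_of_algEquiv, sub_self]
  have hmono := Submodule.finrank_mono hsub
  have hone : Module.finrank (ZMod p) (LinearMap.ker φ) = 1 := by omega
  have heq : LinearMap.range φ = LinearMap.ker (Algebra.trace (ZMod p) K) :=
    Submodule.eq_of_le_of_finrank_eq hsub (by omega)
  split_ifs with hu
  · have hmem : u ∈ LinearMap.range φ := by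
      rw [heq]
      exact hu
    obtain ⟨y0, hy0⟩ := hmem
    rw [hone, pow_one] at hpw
    let e : {y : K // y ^ p - y = u} ≃ LinearMap.ker φ :=
      { toFun := fun y => ⟨y.1 - y0, by rw [LinearMap.mem_ker, map_sub, hy0, hφ, y.2, sub_self]⟩
        invFun := fun y => ⟨y.1 + y0, by
          have h1 := LinearMap.mem_ker.1 y.2
          rw [← hφ, map_add, h1, hy0, zero_add]⟩
        left_inv := fun y => Subtype.ext (sub_add_cancel _ _)
        right_inv := fun y => Subtype.ext (add_sub_cancel_right _ _) }
    exact (Nat.card_congr e).trans hpw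
  · have hemp : IsEmpty {y : K // y ^ p - y = u} := ⟨fun y => hu (by
      have h1 : u ∈ LinearMap.range φ := ⟨y.1, by rw [hφ, y.2]⟩
      rw [heq] at h1
      exact h1)⟩
    exact Nat.card_of_isEmpty

end Pool.Agent.H11.KW
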