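import Mathlib

/-!
# [H11 KW SQF] (X^p - X)^2 - c is not a constant times a square

Proof.  Let `g = X^p - X`, `f = g^2 - C c`.  `g' = -1` in characteristic `p`, so `f' = -2 g` and
`f - g * g = - C c` shows that `f` and `f'` are coprime (`2 ≠ 0`, `c ≠ 0`): `f` is separable, hence
squarefree (`Polynomial.Separable.squarefree`).  Suppose `r^2 = C γ s^2 f`, `s ≠ 0`.  Then `s^2 ∣ r^2`, so
`s ∣ r` (`pow_dvd_pow_iff` in a normalized gcd domain / UFD), `r = s t`, `t^2 = C γ f`, so `t * t ∣ f` up to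
a unit, `t` is a unit, so `f` is a unit, but `natDegree f = 2 p > 0`: contradiction.
-/

namespace Pool.Agent.H11.KW

open Finset Polynomial

theorem ns_as {p : ℕ} [Fact p.Prime] (hp : p ≠ 2) {K : Type} [Field K] [CharP K p] (c : K)
    (hc : c ≠ 0) (r s : K[X]) (γ : K) (hγ : γ ≠ 0)
    (h : r ^ 2 = C γ * s ^ 2 * ((X ^ p - X) ^ 2 - C c)) : s = 0 := by
  have hpp : p.Prime := Fact.out
  have h2 : (2 : K) ≠ 0 := by
    intro h0
    have h1 : ((2 : ℕ) : K) = 0 := by exact_mod_cast h0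
    rw [CharP.cast_eq_zero_iff K p] at h1
    exact hp ((Nat.prime_dvd_prime_iff_eq hpp Nat.prime_two).1 h1)
  have hder : derivative (X ^ p - X : K[X]) = -1 := by
    rw [derivative_sub, derivative_X_pow, derivative_X, CharP.cast_eq_zero K p]
    simp
  have hC2 : (C (2 : K) : K[X]) = 2 := map_ofNat (C : K →+* K[X]) 2
  have hder2 : derivative ((X ^ p - X : K[X]) ^ 2 - C c) = -2 * (X ^ p - X) := by
    rw [derivative_sub, derivative_C, sub_zero, derivative_pow, hder]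
    push_cast
    rw [hC2]
    ring
  have hsep : ((X ^ p - X : K[X]) ^ 2 - C c).Separable := by
    rw [separable_def, hder2]
    refine ⟨-C c⁻¹, -(C (2 * c)⁻¹ * (X ^ p - X)), ?_⟩
    have e1 : (C c⁻¹ : K[X]) * C c = 1 := by
      rw [← C_mul, inv_mul_cancel₀ hc, C_1]
    have e2 : (2 : K[X]) * C (2 * c)⁻¹ = C c⁻¹ := by
      rw [← hC2, ← C_mul, mul_inv, ← mul_assoc, mul_inv_cancel₀ h2, one_mul]
    linear_combination e1 + (X ^ p - X) ^ 2 * e2
  have hsqf := hsep.squarefree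
  by_contra hs
  have hs2 : s ^ 2 ∣ r ^ 2 := by
    rw [h]
    exact ⟨C γ * ((X ^ p - X) ^ 2 - C c), by ring⟩
  have hsr : s ∣ r := (IsIntegrallyClosed.pow_dvd_pow_iff two_ne_zero).1 hs2
  obtain ⟨t, ht⟩ := hsr
  have h3 : t ^ 2 = C γ * ((X ^ p - X) ^ 2 - C c) := by
    apply mul_left_cancel₀ (pow_ne_zero 2 hs)
    rw [ht] at h
    linear_combination h
  have h4 : t * t ∣ (X ^ p - X : K[X]) ^ 2 - C c := by
    refine ⟨C γ⁻¹, ?_⟩
    have e1 : (C γ⁻¹ : K[X]) * C γ = 1 := by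
      rw [← C_mul, inv_mul_cancel₀ hγ, C_1]
    linear_combination (-C γ⁻¹) * h3 - ((X ^ p - X) ^ 2 - C c) * e1
  have h5 := hsqf t h4
  have h6 : natDegree (t ^ 2) = 0 := natDegree_eq_zero_of_isUnit (h5.pow 2)
  rw [h3, natDegree_C_mul hγ, natDegree_sub_C, natDegree_pow,
    FiniteField.X_pow_card_sub_X_natDegree_eq K hpp.one_lt] at h6
  have := hpp.pos
  omega

end Pool.Agent.H11.KW
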