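import Pool.Agent.H11.KW.St3
import Pool.Agent.H11.KW.Sqf

/-!
# [H11 KW LOW] Lower bound for the character sum of the curve w^2 = (y^p - y)^2 - c

Proof.  `f = (X^p - X)^2 - C c`, `natDegree f = 2 p`, `f(0) = -c ≠ 0`.  With `N⁻` the number of `y` with
`χ(f(y)) = -1`, i.e. `f(y)^((q-1)/2) = -1` (`quadraticChar_eq_pow_of_char_ne_two'`: the value of the
quadratic character is the power `(q-1)/2 = q/2`, `q` odd), and `N⁰` the number of zeros of `f`
(`≤ 2 p`), `∑_y χ(f(y)) = N⁺ - N⁻ = q - N⁰ - 2 N⁻ ≥ q - 2 p - (q - 1) - 4 p Q ≥ - 4 p Q - 2 p` by `stepanov`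
with `d = p` and `ns_as`.
-/

namespace Pool.Agent.H11.KW

open Finset Polynomial

theorem chi_lower {p n : ℕ} [Fact p.Prime] (hp : p ≠ 2) {K : Type} [Field K] [Fintype K]
    [DecidableEq K] [CharP K p] (hK : Fintype.card K = (p ^ n) ^ 2) (hn : 2 * p < p ^ n) (c : K)
    (hc : c ≠ 0) :
    -(4 * (p : ℤ) * (p : ℤ) ^ n + 2 * p) ≤ ∑ y : K, quadraticChar K ((y ^ p - y) ^ 2 - c) := by
  have hpp : p.Prime := Fact.out
  have hpodd : Odd p := hpp.odd_of_ne_two hp
  have hodd : Odd (p ^ n) := hpodd.pow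
  have hqodd : Odd ((p ^ n) ^ 2) := hodd.pow
  obtain ⟨f, hf⟩ : ∃ f : K[X], f = (X ^ p - X) ^ 2 - C c := ⟨_, rfl⟩
  have hfe : ∀ y : K, f.eval y = (y ^ p - y) ^ 2 - c := by
    intro y
    rw [hf]
    simp
  have h1 : (X ^ p - X : K[X]).natDegree ≤ p := by
    refine (natDegree_sub_le _ _).trans ?_
    rw [natDegree_X_pow, natDegree_X]
    exact max_le le_rfl hpp.one_lt.le
  have hdeg : f.natDegree ≤ 2 * p := by
    rw [hf]
    refine (natDegree_sub_le _ _).trans ?_
    rw [natDegree_C]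
    refine max_le ?_ (Nat.zero_le _)
    exact natDegree_pow_le_of_le 2 h1
  have hf0 : f.eval 0 ≠ 0 := by
    rw [hfe, zero_pow hpp.ne_zero, sub_zero, zero_pow two_ne_zero, zero_sub]
    exact neg_ne_zero.2 hc
  have hfne : f ≠ 0 := by
    rintro h
    rw [h, eval_zero] at hf0
    exact hf0 rfl
  have hst := stepanov hodd hK f p hdeg hn hf0 (fun r s γ hγ h => ns_as hp c hc r s γ hγ (by
    rw [h, hf]))
  have hchar : ringChar K ≠ 2 := by
    rw [ringChar.eq K p]
    exact hp
  have hhalf : Fintype.card K / 2 = (Fintype.card K - 1) / 2 := by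
    rw [hK]
    obtain ⟨k, hk⟩ := hqodd
    omega
  have hsum : ∑ y : K, quadraticChar K ((y ^ p - y) ^ 2 - c) =
      (Fintype.card K : ℤ) -
        2 * ((univ.filter fun y : K => quadraticChar K (f.eval y) = -1).card : ℤ) -
        ((univ.filter fun y : K => f.eval y = 0).card : ℤ) := by
    have h2 : ∀ y : K, quadraticChar K ((y ^ p - y) ^ 2 - c) =
        1 - 2 * (if quadraticChar K (f.eval y) = -1 then 1 else 0) -
          (if f.eval y = 0 then 1 else 0) := by
      intro y
      rw [← hfe y]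
      by_cases h0 : f.eval y = 0
      · rw [h0, quadraticChar_zero]
        norm_num
      · rcases quadraticChar_dichotomy h0 with h | h
        · rw [h]
          simp [h0]
        · rw [h]
          simp [h0]
    rw [Finset.sum_congr rfl fun y _ => h2 y, Finset.sum_sub_distrib, Finset.sum_sub_distrib,
      ← Finset.mul_sum]
    simp [Finset.card_univ]
  have hN0 : (univ.filter fun y : K => f.eval y = 0).card ≤ 2 * p := by
    refine le_trans ?_ hdeg
    refine le_trans ?_ (Polynomial.card_roots' f)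
    refine le_trans (Finset.card_le_card (t := f.roots.toFinset) ?_) (Multiset.toFinset_card_le _)
    intro y hy
    rw [Multiset.mem_toFinset, mem_roots hfne]
    exact (Finset.mem_filter.1 hy).2
  have hN1 : (univ.filter fun y : K => quadraticChar K (f.eval y) = -1).card ≤
      ((p ^ n) ^ 2 - 1) / 2 + 2 * p * p ^ n := by
    refine le_trans ?_ hst
    rw [Nat.card_eq_fintype_card, Fintype.card_subtype]
    refine Finset.card_le_card fun y hy => ?_
    rw [Finset.mem_filter] at hy ⊢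
    refine ⟨Finset.mem_univ _, ?_⟩
    have h3 := quadraticChar_eq_pow_of_char_ne_two' hchar (f.eval y)
    rw [hy.2, hhalf] at h3
    rw [← h3]
    simp
  rw [hsum, hK]
  obtain ⟨k, hk⟩ := hqodd
  have hN2 : 2 * (univ.filter fun y : K => quadraticChar K (f.eval y) = -1).card ≤
      ((p ^ n) ^ 2 - 1) + 4 * (p * p ^ n) := by
    have h4 : 2 * p * p ^ n = 2 * (p * p ^ n) := by ring
    rw [h4] at hN1
    omega
  have hN3 : 2 * ((univ.filter fun y : K => quadraticChar K (f.eval y) = -1).card : ℤ) + 1 ≤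
      (((p ^ n) ^ 2 : ℕ) : ℤ) + 4 * ((p : ℤ) * (p : ℤ) ^ n) := by
    have h5 : 1 ≤ (p ^ n) ^ 2 := by omega
    have h6 : 2 * (univ.filter fun y : K => quadraticChar K (f.eval y) = -1).card + 1 ≤
        (p ^ n) ^ 2 + 4 * (p * p ^ n) := by omega
    exact_mod_cast h6
  have hN4 : ((univ.filter fun y : K => f.eval y = 0).card : ℤ) ≤ 2 * (p : ℤ) := by
    exact_mod_cast hN0
  linarith

end Pool.Agent.H11.KW
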