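import Pool.Agent.H11.KW.Defs

/-!
# [H11 KW QUAD] Pairs with given sum and product, in K and in the quadratic extension

Let `L/K` be finite fields, `[L : K] = 2`, `q = |K|`, `2 ≠ 0`.

Proof.  By `FiniteField.algebraMap_trace_eq_sum_pow`, `algebraMap_norm_eq_prod_pow` (with
`Module.finrank K L = 2`, `Nat.card K = q`): `Tr x = x + x^q`, `N x = x * x^q` in `L`.
Let `P = T^2 - s T + m`, `D = s^2 - 4 m`.
(1) If `x ∈ L`, `Tr x = s`, `N x = m`, then `x^2 - s x + m = x^2 - (x + x^q) x + x x^q = 0`.
(2) If `x ∈ L` is a root of `P` and `x ∉ K` (i.e. `x^q ≠ x`; for finite fields `x ∈ K ↔ x^q = x`), then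
`x^q` is a root too (apply the Frobenius `y ↦ y^q`, a ring hom fixing `K`), and since a quadratic has at
most two roots `x, x^q` (factor: `0 = P(x) - P(x^q) = (x - x^q)(x + x^q - s)`), `x + x^q = s` and then
`x x^q = x (s - x) = m`.
(3) Cases.  `D = 0`: in `K` exactly one root `x = s/2`; in `L` the element `s/2` has trace `s` and norm
`s^2/4 = m`, and every `x` as in (1) satisfies `(x - s/2)^2 = 0`.  Sum `1 + 1`.
`D ≠ 0` a square in `K`: two roots `x1 ≠ x2` in `K` (`(s ± d)/2`); all roots of `P` in `L` are these (factor
`P = (T - x1)(T - x2)`), and `x ∈ K` has `Tr x = 2x`, `N x = x^2`, so `2x = s`, `x^2 = m` gives `D = 0`,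
contradiction.  Sum `2 + 0`.
`D` not a square in `K`: no root in `K`.  `D` is a square in `L`: (`D^((q-1)/2) = -1`, `D^((q^2-1)/2) =
(-1)^(q+1) = 1`; use `FiniteField.isSquare_iff`), `D = d^2`, `d ∉ K`, the roots of `P` in `L` are
`(s ± d)/2`, two different elements outside `K`, both are good by (2), and by (1) nothing else.  Sum
`0 + 2`.
-/

namespace Pool.Agent.H11.KW

open Finset

private theorem quad_card {F : Type} {p : F → Prop} (S : Finset F)
    (h : ∀ x, x ∈ S ↔ p x) : Nat.card {x : F // p x} = S.card := by
  classical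
  have e : Nat.card {x : F // p x} = Nat.card {x : F // x ∈ S} :=
    Nat.card_congr (Equiv.subtypeEquivRight fun x => (h x).symm)
  rw [e, Nat.card_eq_fintype_card, Fintype.card_coe]

theorem cnt_quad {K L : Type} [Field K] [Fintype K] [Field L] [Fintype L] [Algebra K L]
    (h2 : Module.finrank K L = 2) (hc : (2 : K) ≠ 0) (s m : K) :
    Nat.card {x : K // x ^ 2 - s * x + m = 0} +
      Nat.card {x : L // Algebra.trace K L x = s ∧ Algebra.norm K x = m} = 2 := by
  classical
  have hq : Fintype.card L = Fintype.card K ^ 2 := by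
    rw [Module.card_eq_pow_finrank (K := K) (V := L), h2]
  have hinj : Function.Injective (algebraMap K L) := (algebraMap K L).injective
  have hcL : (2 : L) ≠ 0 := by
    intro h
    apply hc
    apply hinj
    rw [map_ofNat, map_zero]
    exact h
  have hcharK : ringChar K ≠ 2 := by
    intro h
    apply hc
    have h3 := ringChar.Nat.cast_ringChar (R := K)
    rw [h] at h3
    exact_mod_cast h3
  have hcharL : ringChar L ≠ 2 := by
    intro h
    apply hcL
    have h3 := ringChar.Nat.cast_ringChar (R := L)
    rw [h] at h3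
    exact_mod_cast h3
  have hodd := FiniteField.odd_card_of_char_ne_two hcharK
  obtain ⟨c, hcdef⟩ : ∃ c : L →ₐ[K] L, c = FiniteField.frobeniusAlgHom K L := ⟨_, rfl⟩
  have hcap : ∀ x, c x = x ^ Fintype.card K := fun x => by rw [hcdef]; rfl
  have hcc : ∀ x, c (c x) = x := by
    intro x
    rw [hcap, hcap, ← pow_mul, ← sq, ← hq, FiniteField.pow_card]
  have htr : ∀ x : L, algebraMap K L (Algebra.trace K L x) = x + c x := by
    intro x
    rw [FiniteField.algebraMap_trace_eq_sum_pow, h2, Finset.sum_range_succ,
      Finset.sum_range_succ, Finset.sum_range_zero, pow_zero, pow_one, zero_add, pow_one,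
      Nat.card_eq_fintype_card, hcap]
  have hnm : ∀ x : L, algebraMap K L (Algebra.norm K x) = x * c x := by
    intro x
    rw [FiniteField.algebraMap_norm_eq_prod_pow, h2, Finset.prod_range_succ,
      Finset.prod_range_succ, Finset.prod_range_zero, pow_zero, pow_one, one_mul, pow_one,
      Nat.card_eq_fintype_card, hcap]
  have hgood : ∀ x : L, (Algebra.trace K L x = s ∧ Algebra.norm K x = m) ↔
      (x + c x = algebraMap K L s ∧ x * c x = algebraMap K L m) := by
    intro x
    rw [← htr, ← hnm]
    exact ⟨fun h => ⟨by rw [h.1], by rw [h.2]⟩, fun h => ⟨hinj h.1, hinj h.2⟩⟩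
  have h4 : (2 : K) * 2⁻¹ = 1 := mul_inv_cancel₀ hc
  have h4L : (2 : L) * 2⁻¹ = 1 := mul_inv_cancel₀ hcL
  have hc2 : c 2⁻¹ = 2⁻¹ := by rw [map_inv₀, map_ofNat]
  have e1 : Nat.card {x : K // x ^ 2 - s * x + m = 0} =
      Nat.card {δ : K // δ ^ 2 = s ^ 2 - 4 * m} := by
    refine Nat.card_congr ⟨fun x => ⟨2 * x.1 - s, ?_⟩, fun d => ⟨(s + d.1) * 2⁻¹, ?_⟩, ?_, ?_⟩
    · have := x.2
      linear_combination 4 * this
    · have := d.2
      have h5 : ((s + d.1) * 2⁻¹) ^ 2 - s * ((s + d.1) * 2⁻¹) + m = 0 := by
        have h6 : (4 : K) * (((s + d.1) * 2⁻¹) ^ 2 - s * ((s + d.1) * 2⁻¹) + m) = 0 := by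
          linear_combination this + (s + d.1) * (s + d.1) * (2 * 2⁻¹ + 1) * h4 -
            2 * s * (s + d.1) * h4
        have h7 : (4 : K) ≠ 0 := by
          have : (4 : K) = 2 * 2 := by norm_num
          rw [this]
          exact mul_ne_zero hc hc
        exact (mul_eq_zero.1 h6).resolve_left h7
      exact h5
    · intro x
      apply Subtype.ext
      show (s + (2 * x.1 - s)) * 2⁻¹ = x.1
      linear_combination x.1 * h4
    · intro d
      apply Subtype.ext
      show 2 * ((s + d.1) * 2⁻¹) - s = d.1
      linear_combination (s + d.1) * h4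
  have e2 : Nat.card {x : L // Algebra.trace K L x = s ∧ Algebra.norm K x = m} =
      Nat.card {δ : L // δ ^ 2 = algebraMap K L (s ^ 2 - 4 * m) ∧ c δ = -δ} := by
    have hD : algebraMap K L (s ^ 2 - 4 * m) =
        (algebraMap K L s) ^ 2 - 4 * algebraMap K L m := by
      rw [map_sub, map_pow, map_mul, map_ofNat]
    have hcs : c (algebraMap K L s) = algebraMap K L s := c.commutes s
    refine Nat.card_congr ⟨fun x => ⟨2 * x.1 - algebraMap K L s, ?_⟩,
      fun d => ⟨(algebraMap K L s + d.1) * 2⁻¹, ?_⟩, ?_, ?_⟩
    · obtain ⟨a1, a2⟩ := (hgood x.1).1 x.2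
      rw [hD, map_sub, map_mul, map_ofNat, hcs]
      constructor
      · linear_combination (4 * x.1) * a1 - 4 * a2
      · linear_combination 2 * a1
    · have b1 : d.1 ^ 2 = (algebraMap K L s) ^ 2 - 4 * algebraMap K L m := d.2.1.trans hD
      have b2 : c d.1 = -d.1 := d.2.2
      rw [hgood, map_mul, map_add, hcs, hc2, b2]
      constructor
      · linear_combination (algebraMap K L s) * h4L
      · have h7 : (4 : L) ≠ 0 := by
          have : (4 : L) = 2 * 2 := by norm_num
          rw [this]
          exact mul_ne_zero hcL hcL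
        have h6 : (4 : L) * ((algebraMap K L s + d.1) * 2⁻¹ *
            ((algebraMap K L s + -d.1) * 2⁻¹) - algebraMap K L m) = 0 := by
          linear_combination (-1 : L) * b1 + ((algebraMap K L s) ^ 2 - d.1 ^ 2) *
            (2 * 2⁻¹ + 1) * h4L
        exact sub_eq_zero.1 ((mul_eq_zero.1 h6).resolve_left h7)
    · intro x
      apply Subtype.ext
      show (algebraMap K L s + (2 * x.1 - algebraMap K L s)) * 2⁻¹ = x.1
      linear_combination x.1 * h4L
    · intro d
      apply Subtype.ext
      show 2 * ((algebraMap K L s + d.1) * 2⁻¹) - algebraMap K L s = d.1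
      linear_combination (algebraMap K L s + d.1) * h4L
  rw [e1, e2]
  generalize s ^ 2 - 4 * m = D
  by_cases hD0 : D = 0
  · subst hD0
    rw [quad_card {0} (fun x => by simp), quad_card {0} (fun x => by
      rw [map_zero, Finset.mem_singleton]
      constructor
      · rintro rfl
        simp
      · rintro ⟨h, -⟩
        exact pow_eq_zero_iff (two_ne_zero) |>.1 h)]
    simp
  · by_cases hsq : IsSquare D
    · obtain ⟨d, hd⟩ := hsq
      have hd0 : d ≠ 0 := by
        rintro rfl
        exact hD0 (by rw [hd, mul_zero])
      have hdd : d ≠ -d := by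
        intro h
        have : (2 : K) * d = 0 := by linear_combination h
        rcases mul_eq_zero.1 this with h | h
        · exact hc h
        · exact hd0 h
      rw [quad_card {d, -d} (fun x => by
        rw [Finset.mem_insert, Finset.mem_singleton, hd, ← sq]
        exact (sq_eq_sq_iff_eq_or_eq_neg).symm), quad_card ∅ (fun x => by
        simp only [Finset.notMem_empty, false_iff]
        rintro ⟨h, h'⟩
        rw [hd, ← sq, map_pow, sq_eq_sq_iff_eq_or_eq_neg] at h
        have h8 : c x = x := by
          rcases h with rfl | rfl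
          · exact c.commutes d
          · rw [map_neg, c.commutes]
        rw [h8] at h'
        have h9 : (2 : L) * x = 0 := by linear_combination h'
        rcases mul_eq_zero.1 h9 with h10 | h10
        · exact hcL h10
        · rw [h10] at h
          have h11 : algebraMap K L d = 0 := by
            rcases h with h | h
            · exact h.symm
            · exact neg_eq_zero.1 h.symm
          exact hd0 (hinj (by rw [h11, map_zero])))]
      rw [Finset.card_pair hdd, Finset.card_empty]
    · have hDL : algebraMap K L D ≠ 0 := by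
        intro h
        exact hD0 (hinj (by rw [h, map_zero]))
      have hsqL : IsSquare (algebraMap K L D) := by
        rw [FiniteField.isSquare_iff hcharL hDL, hq]
        have h12 : Fintype.card K ^ 2 / 2 =
            (Fintype.card K - 1) * ((Fintype.card K + 1) / 2) := by
          obtain ⟨t, ht⟩ : ∃ t, Fintype.card K = 2 * t + 1 := ⟨Fintype.card K / 2, by omega⟩
          rw [ht]
          have a1 : (2 * t + 1) ^ 2 = 2 * (2 * t * (t + 1)) + 1 := by ring
          have a2 : (2 * t + 1 + 1) / 2 = t + 1 := by omega
          rw [a1, a2]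
          have a3 : (2 * (2 * t * (t + 1)) + 1) / 2 = 2 * t * (t + 1) := by omega
          rw [a3, Nat.add_sub_cancel]
        rw [h12, pow_mul, ← map_pow, FiniteField.pow_card_sub_one_eq_one D hD0, map_one,
          one_pow]
      obtain ⟨d, hd⟩ := hsqL
      have hd0 : d ≠ 0 := by
        rintro rfl
        exact hDL (by rw [hd, mul_zero])
      have hdd : d ≠ -d := by
        intro h
        have : (2 : L) * d = 0 := by linear_combination h
        rcases mul_eq_zero.1 this with h | h
        · exact hcL h
        · exact hd0 h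
      have hcd : c d = -d := by
        have h13 : (c d) ^ 2 = d ^ 2 := by
          rw [← map_pow, sq, ← hd, c.commutes]
        rcases sq_eq_sq_iff_eq_or_eq_neg.1 h13 with h | h
        · exfalso
          apply hsq
          rw [FiniteField.isSquare_iff hcharK hD0]
          apply hinj
          rw [map_pow, hd, map_one, ← sq, ← pow_mul]
          rw [hcap] at h
          have h14 : Fintype.card K = 2 * (Fintype.card K / 2) + 1 := by omega
          rw [h14, pow_succ] at h
          have h15 : d ^ (2 * (Fintype.card K / 2)) * d = 1 * d := by rw [one_mul]; exact h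
          exact mul_right_cancel₀ hd0 h15
        · exact h
      rw [quad_card ∅ (fun x => by
        simp only [Finset.notMem_empty, false_iff]
        intro h
        exact hsq ⟨x, by rw [← h, sq]⟩), quad_card {d, -d} (fun x => by
        rw [Finset.mem_insert, Finset.mem_singleton, hd, ← sq]
        constructor
        · rintro (rfl | rfl)
          · exact ⟨rfl, hcd⟩
          · exact ⟨by rw [neg_sq], by rw [map_neg, hcd]⟩
        · rintro ⟨h, -⟩
          exact sq_eq_sq_iff_eq_or_eq_neg.1 h)]
      rw [Finset.card_pair hdd, Finset.card_empty]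

end Pool.Agent.H11.KW
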