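import Mathlib

/-!
# [H11 KW REC] The recursion s ↦ 2 - s^2

Proof.  Normalise: `u_0 = σ_0/√p`, `u_{j+1} = σ_{j+1}/p^(2^j)`; since `(p^(2^j))^2 = p^(2^(j+1))` and
`(√p)^2 = p = p^(2^0)`: `u_{j+1} = 2 - u_j^2` for all `j ≥ 0`.  So `u_j ≤ 2` for `j ≥ 1`.  The hypothesis says
`∑_t u_{j+1}(t) ≥ -C` for `j ≥ j0`, so `u_{j+1}(t) ≥ - C - 2 |T|` for each `t`.  Suppose `|u_0(t)| > 2`,
`|u_0(t)| ≥ 2 + e`, `e > 0`.  By induction `|u_j(t)| ≥ 2 + 4^j e`... : `|u_{j+1}| = u_j^2 - 2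
≥ (2 + x)^2 - 2 ≥ 2 + 4 x` if `|u_j| ≥ 2 + x`, `x ≥ 0`, and `u_{j+1} = 2 - u_j^2 < 0`, so
`u_{j+1} ≤ -2 - 4^(j+1) e → -∞`: contradiction for `j` large.
-/

namespace Pool.Agent.H11.KW

open Finset

theorem rec_bound {T : Type} [Fintype T] (σ : ℕ → T → ℝ) (p : ℝ) (hp : 1 < p)
    (h0 : ∀ j t, σ (j + 1) t = 2 * p ^ (2 ^ j) - σ j t ^ 2) (C : ℝ) (j0 : ℕ)
    (h : ∀ j ≥ j0, -(C * p ^ (2 ^ j)) ≤ ∑ t, σ (j + 1) t) (t : T) :
    |σ 0 t| ≤ 2 * √p := by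
  classical
  have hp0 : 0 < p := by linarith
  have hpp : ∀ j : ℕ, 0 < p ^ (2 ^ j) := fun j => pow_pos hp0 _
  have hsq : ∀ j : ℕ, p ^ (2 ^ (j + 1)) = (p ^ (2 ^ j)) ^ 2 := fun j => by
    rw [← pow_mul, pow_succ 2 j]
  have hw : ∀ j t, σ (j + 1 + 1) t / p ^ (2 ^ (j + 1)) =
      2 - (σ (j + 1) t / p ^ (2 ^ j)) ^ 2 := by
    intro j t
    have h2 := (hpp j).ne'
    rw [h0 (j + 1) t, hsq]
    field_simp
  have hw0 : ∀ t, σ (0 + 1) t / p ^ (2 ^ 0) = 2 - σ 0 t ^ 2 / p := by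
    intro t
    rw [h0 0 t, pow_zero, pow_one]
    field_simp
  have hle : ∀ j t, σ (j + 1) t / p ^ (2 ^ j) ≤ 2 := by
    intro j t
    cases j with
    | zero =>
      rw [hw0]
      have h3 := div_nonneg (sq_nonneg (σ 0 t)) hp0.le
      linarith
    | succ j =>
      rw [hw]
      have h3 := sq_nonneg (σ (j + 1) t / p ^ (2 ^ j))
      linarith
  by_contra hcon
  push Not at hcon
  have h4 : 4 * p < σ 0 t ^ 2 := by
    have h5 : (2 * √p) ^ 2 < |σ 0 t| ^ 2 :=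
      pow_lt_pow_left₀ hcon (by positivity) two_ne_zero
    rw [sq_abs, mul_pow, Real.sq_sqrt hp0.le] at h5
    linarith
  obtain ⟨e, he⟩ : ∃ e, e = σ 0 t ^ 2 / p - 4 := ⟨_, rfl⟩
  have he0 : 0 < e := by
    rw [he, sub_pos, lt_div_iff₀ hp0]
    exact h4
  have hind : ∀ j : ℕ, σ (j + 1) t / p ^ (2 ^ j) ≤ -2 - 4 ^ j * e := by
    intro j
    induction j with
    | zero =>
      rw [hw0, he]
      simp only [pow_zero, one_mul]
      linarith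
    | succ j ih =>
      rw [hw]
      obtain ⟨x, hx⟩ : ∃ x : ℝ, x = 4 ^ j * e := ⟨_, rfl⟩
      have hx0 : 0 < x := by
        rw [hx]
        positivity
      rw [← hx] at ih
      have h5 : (4 : ℝ) ^ (j + 1) * e = 4 * x := by
        rw [hx, pow_succ]
        ring
      rw [h5]
      nlinarith
  obtain ⟨N, hN⟩ := exists_nat_gt ((C + 2 * Fintype.card T) / e)
  obtain ⟨j, hj⟩ : ∃ j : ℕ, j = max j0 N := ⟨_, rfl⟩
  have h6 := h j (hj ▸ le_max_left _ _)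
  have h7 : -C ≤ ∑ t', σ (j + 1) t' / p ^ (2 ^ j) := by
    rw [← Finset.sum_div, le_div_iff₀ (hpp j)]
    linarith
  have h8 : ∑ t', σ (j + 1) t' / p ^ (2 ^ j) ≤
      σ (j + 1) t / p ^ (2 ^ j) + 2 * (Fintype.card T : ℝ) := by
    rw [← Finset.add_sum_erase _ _ (Finset.mem_univ t)]
    have h9 : ∑ t' ∈ Finset.univ.erase t, σ (j + 1) t' / p ^ (2 ^ j) ≤
        (Finset.univ.erase t).card • (2 : ℝ) :=
      Finset.sum_le_card_nsmul _ _ 2 fun t' _ => hle j t'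
    have h10 : ((Finset.univ.erase t).card : ℝ) ≤ Fintype.card T := by
      exact_mod_cast Finset.card_le_univ _
    rw [nsmul_eq_mul] at h9
    linarith
  have h9 := hind j
  have h10 : (j : ℝ) ≤ 4 ^ j := by
    exact_mod_cast (Nat.lt_pow_self (by norm_num : 1 < 4)).le
  have h11 : (N : ℝ) ≤ j := by
    exact_mod_cast hj ▸ le_max_right _ _
  have h12 : (C + 2 * Fintype.card T) / e < 4 ^ j := by linarith
  rw [div_lt_iff₀ he0] at h12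
  linarith

end Pool.Agent.H11.KW
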