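import Mathlib

/-!
# [H11 KW ST1] Stepanov's auxiliary polynomial: existence (linear algebra, no derivatives)

`K` finite of characteristic `p`, `Q = p^n` odd, `2 d < Q`, `T = (Q+1)/2`, `J = T + d`.

Proof.  Consider the `K`-linear map from `V = (Fin J → Fin T → K) × (Fin J → Fin (T-d) → K)` to the
polynomials of degree `< E = (T-1) Q + d + J`:
`(ρ, σ) ↦ ∑_j (∑_i ρ_{ji} X^{iQ} - ∑_i σ_{ji} X^{iQ} f^T) X^j`.
Degrees: the first part has degree `≤ (T-1)Q + J - 1 < E`; the second `≤ (T-d-1)Q + 2 d T + J - 1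
= (T-d-1) Q + d (Q+1) + J - 1 = (T-1) Q + d + J - 1 < E`.
`dim V = J (2T - d) = J (Q + 1 - d)` and `dim V - E = J (Q - d) - (T-1) Q - d
= T Q - T d + d Q - d^2 - T Q + Q - d = Q (1+d) - T d - d^2 - d > 0` since `T d = (Q+1) d/2` and
`Q ≥ 2 d + 1`.  So there is a nonzero `(ρ, σ)` in the kernel
(`LinearMap.exists_ne_zero_of_...`/`LinearMap.ker_ne_bot_of_finrank_lt`).
The map `x ↦ x^Q` is bijective on the finite field `K` (`Q = p^n`; injective ring hom `iterateFrobenius`),
so `ρ = c^Q`, `σ = e^Q`; let `r_j = ∑ c_{ji} X^i`, `s_j = ∑ e_{ji} X^i` (zero for `j ≥ J`).  In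
characteristic `p`: `r_j^Q = ∑ c_{ji}^Q X^{iQ}` (`sum_pow_char_pow`, `mul_pow`), same for `s_j`.
-/

namespace Pool.Agent.H11.KW

open Finset Polynomial

/-- the polynomial attached to a coefficient vector -/
noncomputable def st1P {K : Type} [Field K] (J T T' Q : ℕ) (g : K[X])
    (v : (Fin J × Fin T → K) × (Fin J × Fin T' → K)) : K[X] :=
  ∑ j : Fin J, ((∑ i : Fin T, C (v.1 (j, i)) * X ^ ((i : ℕ) * Q)) -
    (∑ i : Fin T', C (v.2 (j, i)) * X ^ ((i : ℕ) * Q)) * g) * X ^ (j : ℕ)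

theorem st1P_add {K : Type} [Field K] (J T T' Q : ℕ) (g : K[X])
    (v w : (Fin J × Fin T → K) × (Fin J × Fin T' → K)) :
    st1P J T T' Q g (v + w) = st1P J T T' Q g v + st1P J T T' Q g w := by
  unfold st1P
  rw [← Finset.sum_add_distrib]
  refine Finset.sum_congr rfl fun j _ => ?_
  have h1 : ∑ i : Fin T, C ((v + w).1 (j, i)) * (X : K[X]) ^ ((i : ℕ) * Q) =
      ∑ i : Fin T, C (v.1 (j, i)) * X ^ ((i : ℕ) * Q) +
        ∑ i : Fin T, C (w.1 (j, i)) * X ^ ((i : ℕ) * Q) := by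
    rw [← Finset.sum_add_distrib]
    refine Finset.sum_congr rfl fun i _ => ?_
    rw [Prod.fst_add, Pi.add_apply, C_add, add_mul]
  have h2 : ∑ i : Fin T', C ((v + w).2 (j, i)) * (X : K[X]) ^ ((i : ℕ) * Q) =
      ∑ i : Fin T', C (v.2 (j, i)) * X ^ ((i : ℕ) * Q) +
        ∑ i : Fin T', C (w.2 (j, i)) * X ^ ((i : ℕ) * Q) := by
    rw [← Finset.sum_add_distrib]
    refine Finset.sum_congr rfl fun i _ => ?_
    rw [Prod.snd_add, Pi.add_apply, C_add, add_mul]
  rw [h1, h2]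
  ring

theorem st1P_smul {K : Type} [Field K] (J T T' Q : ℕ) (g : K[X]) (c : K)
    (v : (Fin J × Fin T → K) × (Fin J × Fin T' → K)) :
    st1P J T T' Q g (c • v) = C c * st1P J T T' Q g v := by
  unfold st1P
  rw [Finset.mul_sum]
  refine Finset.sum_congr rfl fun j _ => ?_
  have h1 : ∑ i : Fin T, C ((c • v).1 (j, i)) * (X : K[X]) ^ ((i : ℕ) * Q) =
      C c * ∑ i : Fin T, C (v.1 (j, i)) * X ^ ((i : ℕ) * Q) := by
    rw [Finset.mul_sum]
    refine Finset.sum_congr rfl fun i _ => ?_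
    rw [Prod.smul_fst, Pi.smul_apply, smul_eq_mul, C_mul, mul_assoc]
  have h2 : ∑ i : Fin T', C ((c • v).2 (j, i)) * (X : K[X]) ^ ((i : ℕ) * Q) =
      C c * ∑ i : Fin T', C (v.2 (j, i)) * X ^ ((i : ℕ) * Q) := by
    rw [Finset.mul_sum]
    refine Finset.sum_congr rfl fun i _ => ?_
    rw [Prod.smul_snd, Pi.smul_apply, smul_eq_mul, C_mul, mul_assoc]
  rw [h1, h2]
  ring

theorem st1P_mem {K : Type} [Field K] (J T T' Q E : ℕ) (g : K[X])
    (h1 : ∀ i < T, ∀ j < J, i * Q + j < E)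
    (h2 : ∀ i < T', ∀ j < J, i * Q + g.natDegree + j < E)
    (v : (Fin J × Fin T → K) × (Fin J × Fin T' → K)) :
    st1P J T T' Q g v ∈ degreeLT K E := by
  have key : ∀ q : K[X], q.natDegree < E → q ∈ degreeLT K E := by
    intro q hq
    rw [mem_degreeLT]
    exact lt_of_le_of_lt degree_le_natDegree (by exact_mod_cast hq)
  unfold st1P
  refine Submodule.sum_mem _ fun j _ => ?_
  rw [sub_mul, Finset.sum_mul, Finset.sum_mul, Finset.sum_mul]
  refine Submodule.sub_mem _ (Submodule.sum_mem _ fun i _ => key _ ?_)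
    (Submodule.sum_mem _ fun i _ => key _ ?_)
  · refine lt_of_le_of_lt (natDegree_mul_le.trans (add_le_add (natDegree_C_mul_X_pow_le _ _)
      (natDegree_X_pow_le _))) (h1 i i.2 j j.2)
  · refine lt_of_le_of_lt (natDegree_mul_le.trans (add_le_add (natDegree_mul_le.trans
      (add_le_add (natDegree_C_mul_X_pow_le _ _) le_rfl))
      (natDegree_X_pow_le _))) (h2 i i.2 j j.2)

theorem st1_ker {K : Type} [Field K] (J T T' Q E : ℕ) (g : K[X]) (hE : E < J * T + J * T')
    (h1 : ∀ i < T, ∀ j < J, i * Q + j < E)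
    (h2 : ∀ i < T', ∀ j < J, i * Q + g.natDegree + j < E) :
    ∃ v : (Fin J × Fin T → K) × (Fin J × Fin T' → K), v ≠ 0 ∧ st1P J T T' Q g v = 0 := by
  let Φ : ((Fin J × Fin T → K) × (Fin J × Fin T' → K)) →ₗ[K] (Fin E → K) :=
    { toFun := fun v m => (st1P J T T' Q g v).coeff m
      map_add' := by
        intro v w
        funext m
        rw [st1P_add, coeff_add]
        rfl
      map_smul' := by
        intro c v
        funext m
        rw [st1P_smul, coeff_C_mul]
        rfl }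
  have hker : LinearMap.ker Φ ≠ ⊥ := by
    apply LinearMap.ker_ne_bot_of_finrank_lt
    rw [Module.finrank_prod, Module.finrank_fintype_fun_eq_card,
      Module.finrank_fintype_fun_eq_card, Module.finrank_fintype_fun_eq_card, Fintype.card_prod,
      Fintype.card_prod, Fintype.card_fin, Fintype.card_fin, Fintype.card_fin, Fintype.card_fin]
    exact hE
  obtain ⟨v, hv, hv0⟩ := Submodule.exists_mem_ne_zero_of_ne_bot hker
  refine ⟨v, hv0, ?_⟩
  have hm := st1P_mem J T T' Q E g h1 h2 v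
  rw [mem_degreeLT] at hm
  ext m
  rw [coeff_zero]
  by_cases hmE : m < E
  · rw [LinearMap.mem_ker] at hv
    exact congrFun hv ⟨m, hmE⟩
  · apply coeff_eq_zero_of_degree_lt
    refine lt_of_lt_of_le hm ?_
    exact_mod_cast not_lt.1 hmE

theorem exists_rs {K : Type} [Field K] [Finite K] {p n : ℕ} [Fact p.Prime] [CharP K p]
    (hodd : Odd (p ^ n)) (f : K[X]) (d : ℕ) (hf : f.natDegree ≤ 2 * d) (hd : 2 * d < p ^ n) :
    ∃ r s : ℕ → K[X], (∀ j, (r j).degree < (((p ^ n + 1) / 2 : ℕ) : WithBot ℕ)) ∧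
      (∀ j, (s j).degree < (((p ^ n + 1) / 2 - d : ℕ) : WithBot ℕ)) ∧
      (∃ j < (p ^ n + 1) / 2 + d, r j ≠ 0 ∨ s j ≠ 0) ∧
      ∑ j ∈ range ((p ^ n + 1) / 2 + d),
        ((r j) ^ (p ^ n) - (s j) ^ (p ^ n) * f ^ ((p ^ n + 1) / 2)) * X ^ j = 0 := by
  set Q : ℕ := p ^ n with hQ
  obtain ⟨k, hk⟩ := hodd
  have hT : (Q + 1) / 2 = k + 1 := by omega
  rw [hT]
  have hdk : d ≤ k := by omega
  obtain ⟨e, rfl⟩ := Nat.exists_eq_add_of_le hdk
  have hT' : d + e + 1 - d = e + 1 := by omega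
  rw [hT']
  have hg : (f ^ (d + e + 1)).natDegree ≤ (d + e + 1) * (2 * d) :=
    natDegree_pow_le.trans (Nat.mul_le_mul_left _ hf)
  obtain ⟨v, hv0, hv⟩ := st1_ker (d + e + 1 + d) (d + e + 1) (e + 1) Q
    ((d + e) * Q + d + (d + e + 1 + d)) (f ^ (d + e + 1)) (by rw [hk]; nlinarith)
    (by
      intro i hi j hj
      have h3 : i * Q ≤ (d + e) * Q := Nat.mul_le_mul_right _ (by omega)
      omega)
    (by
      intro i hi j hj
      have h3 : i * Q ≤ e * Q := Nat.mul_le_mul_right _ (by omega)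
      have h4 : (d + e + 1) * (2 * d) + e * Q = (d + e) * Q + d := by
        rw [hk]; ring
      omega)
  have hroot : ∀ a : K, ∃ b : K, b ^ Q = a := by
    have hinj : Function.Injective (iterateFrobenius K p n) := (iterateFrobenius K p n).injective
    intro a
    obtain ⟨b, hb⟩ := (Finite.injective_iff_surjective.1 hinj) a
    rw [iterateFrobenius_def] at hb
    exact ⟨b, hb⟩
  choose root hroot using hroot
  have hQ0 : Q ≠ 0 := by omega
  have hrt0 : ∀ a : K, a ≠ 0 → root a ≠ 0 := by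
    intro a ha h
    apply ha
    rw [← hroot a, h, zero_pow hQ0]
  -- the general construction
  have hcon : ∀ (t : ℕ) (c : Fin t → K),
      (∑ i : Fin t, C (root (c i)) * (X : K[X]) ^ (i : ℕ)).degree < ((t : ℕ) : WithBot ℕ) ∧
      (∑ i : Fin t, C (root (c i)) * (X : K[X]) ^ (i : ℕ)) ^ Q =
        ∑ i : Fin t, C (c i) * (X : K[X]) ^ ((i : ℕ) * Q) ∧
      ((∃ i, c i ≠ 0) → ∑ i : Fin t, C (root (c i)) * (X : K[X]) ^ (i : ℕ) ≠ 0) := by
    intro t c
    refine ⟨?_, ?_, ?_⟩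
    · rw [← mem_degreeLT]
      refine Submodule.sum_mem _ fun i _ => ?_
      rw [mem_degreeLT]
      refine lt_of_le_of_lt (degree_C_mul_X_pow_le _ _) ?_
      exact_mod_cast i.2
    · rw [hQ, sum_pow_char_pow, ← hQ]
      refine Finset.sum_congr rfl fun i _ => ?_
      rw [mul_pow, ← C_pow, hroot, ← pow_mul]
    · rintro ⟨i, hi⟩ h
      have h5 := congrArg (fun q : K[X] => q.coeff i) h
      simp only [finsetSum_coeff, coeff_C_mul_X_pow, coeff_zero] at h5
      rw [Finset.sum_eq_single i] at h5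
      · rw [if_pos rfl] at h5
        exact hrt0 _ hi h5
      · intro b _ hb
        rw [if_neg]
        intro h6
        exact hb (Fin.ext h6.symm)
      · intro h6
        exact absurd (Finset.mem_univ _) h6
  refine ⟨fun j => if h : j < d + e + 1 + d then
      ∑ i : Fin (d + e + 1), C (root (v.1 (⟨j, h⟩, i))) * X ^ (i : ℕ) else 0,
    fun j => if h : j < d + e + 1 + d then
      ∑ i : Fin (e + 1), C (root (v.2 (⟨j, h⟩, i))) * X ^ (i : ℕ) else 0, ?_, ?_, ?_, ?_⟩
  · intro j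
    dsimp only
    split_ifs with h
    · exact (hcon (d + e + 1) fun i => v.1 (⟨j, h⟩, i)).1
    · rw [degree_zero]
      exact WithBot.bot_lt_coe _
  · intro j
    dsimp only
    split_ifs with h
    · exact (hcon (e + 1) fun i => v.2 (⟨j, h⟩, i)).1
    · rw [degree_zero]
      exact WithBot.bot_lt_coe _
  · by_contra hcont
    push Not at hcont
    apply hv0
    have hz : ∀ j : Fin (d + e + 1 + d), (∀ i, v.1 (j, i) = 0) ∧ ∀ i, v.2 (j, i) = 0 := by
      intro j
      obtain ⟨h5, h6⟩ := hcont j j.2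
      rw [dif_pos j.2] at h5 h6
      constructor
      · intro i
        by_contra hi
        exact (hcon (d + e + 1) fun i => v.1 (j, i)).2.2 ⟨i, hi⟩ h5
      · intro i
        by_contra hi
        exact (hcon (e + 1) fun i => v.2 (j, i)).2.2 ⟨i, hi⟩ h6
    refine Prod.ext ?_ ?_
    · funext x
      exact (hz x.1).1 x.2
    · funext x
      exact (hz x.1).2 x.2
  · rw [← hv, st1P, ← Fin.sum_univ_eq_sum_range (fun j => _) (d + e + 1 + d)]
    refine Finset.sum_congr rfl fun j _ => ?_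
    dsimp only
    rw [dif_pos j.2, dif_pos j.2, (hcon (d + e + 1) fun i => v.1 (j, i)).2.1,
      (hcon (e + 1) fun i => v.2 (j, i)).2.1]

end Pool.Agent.H11.KW
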