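import Mathlib

/-!
# [H11 KW ST2] Stepanov's auxiliary polynomial: it does not vanish

Proof.  `Q = p^n`, `T = (Q+1)/2`.  Suppose the sum is `0`; let `j0` be the least `j < J` with
`(r_j, s_j) ≠ (0,0)`.  All terms with `j < j0` vanish, and all terms with `j > j0` are divisible by
`X^((j0+1) Q)`, so `X^Q ∣ r + s f^T` with `r = r_{j0}`, `s = s_{j0}` (cancel `X^(j0 Q)`).  Multiply by
`r - s f^T`: `X^Q ∣ r^2 - s^2 f^(2T) = r^2 - s^2 f^(Q+1)`.  In characteristic `p`,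
`f^Q = f^{(Q)}(X^Q)` (expand of the Frobenius twist) so `X^Q ∣ f^Q - C (f(0)^Q)`
(e.g. `f - C (f 0) = X g`, `(f - C(f 0))^Q = X^Q g^Q` and `(u - v)^Q = u^Q - v^Q`, `sub_pow_char_pow`).
So `X^Q ∣ r^2 - C (f(0)^Q) s^2 f`, whose degree is `≤ max (2 (T-1), 2 (T-d-1) + 2 d) = Q - 1 < Q`; so
`r^2 = C γ s^2 f`, `γ = f(0)^Q ≠ 0`.  By `hNS`, `s = 0`, then `r^2 = 0`, `r = 0`: contradiction.
(`T - d ≥ 1` because `2 d < Q`.)
-/

namespace Pool.Agent.H11.KW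

open Finset Polynomial

theorem aux_ne_zero {K : Type} [Field K] {p n : ℕ} [Fact p.Prime] [CharP K p]
    (hodd : Odd (p ^ n)) (f : K[X]) (d : ℕ) (hf : f.natDegree ≤ 2 * d) (hd : 2 * d < p ^ n)
    (f0 : f.eval 0 ≠ 0)
    (hNS : ∀ (r s : K[X]) (γ : K), γ ≠ 0 → r ^ 2 = C γ * s ^ 2 * f → s = 0)
    (r s : ℕ → K[X]) (hr : ∀ j, (r j).degree < (((p ^ n + 1) / 2 : ℕ) : WithBot ℕ))
    (hs : ∀ j, (s j).degree < (((p ^ n + 1) / 2 - d : ℕ) : WithBot ℕ)) (J : ℕ)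
    (hne : ∃ j < J, r j ≠ 0 ∨ s j ≠ 0) :
    ∑ j ∈ range J, (r j + s j * f ^ ((p ^ n + 1) / 2)) * X ^ (j * p ^ n) ≠ 0 := by
  intro h0
  classical
  set Q : ℕ := p ^ n with hQ
  obtain ⟨T, hT⟩ : ∃ T, 2 * T = Q + 1 := by
    obtain ⟨k, hk⟩ := hodd
    exact ⟨k + 1, by omega⟩
  have hT2 : (Q + 1) / 2 = T := by omega
  rw [hT2] at hr hs h0
  have hex : ∃ j, j < J ∧ (r j ≠ 0 ∨ s j ≠ 0) := by
    obtain ⟨j, hj, h⟩ := hne
    exact ⟨j, hj, h⟩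
  obtain ⟨j0, ⟨hj0, hj0ne⟩, hmin⟩ : ∃ j0, (j0 < J ∧ (r j0 ≠ 0 ∨ s j0 ≠ 0)) ∧
      ∀ m < j0, ¬ (m < J ∧ (r m ≠ 0 ∨ s m ≠ 0)) :=
    ⟨Nat.find hex, Nat.find_spec hex, fun m hm => Nat.find_min hex hm⟩
  have hsum := Finset.add_sum_erase (range J)
    (fun j => (r j + s j * f ^ T) * X ^ (j * Q)) (mem_range.2 hj0)
  rw [h0] at hsum
  have hrest : (X : K[X]) ^ ((j0 + 1) * Q) ∣
      ∑ j ∈ (range J).erase j0, (r j + s j * f ^ T) * X ^ (j * Q) := by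
    refine Finset.dvd_sum fun j hj => ?_
    obtain ⟨hjne, hjJ⟩ := Finset.mem_erase.1 hj
    rcases lt_or_gt_of_ne hjne with hlt | hgt
    · have h1 : r j = 0 ∧ s j = 0 := by
        have := hmin j hlt
        push Not at this
        exact this (mem_range.1 hjJ)
      rw [h1.1, h1.2]
      simp
    · exact Dvd.dvd.mul_left (pow_dvd_pow _ (Nat.mul_le_mul_right _ hgt)) _
  have hterm : (X : K[X]) ^ ((j0 + 1) * Q) ∣ (r j0 + s j0 * f ^ T) * X ^ (j0 * Q) := by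
    have h1 : (r j0 + s j0 * f ^ T) * X ^ (j0 * Q) =
        - ∑ j ∈ (range J).erase j0, (r j + s j * f ^ T) * X ^ (j * Q) :=
      eq_neg_of_add_eq_zero_left hsum
    rw [h1]
    exact (dvd_neg).2 hrest
  have hd1 : (X : K[X]) ^ Q ∣ r j0 + s j0 * f ^ T := by
    have h1 : (X : K[X]) ^ ((j0 + 1) * Q) = X ^ Q * X ^ (j0 * Q) := by
      rw [← pow_add]
      congr 1
      ring
    rw [h1] at hterm
    exact (mul_dvd_mul_iff_right (pow_ne_zero _ X_ne_zero)).1 hterm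
  have hd2 : (X : K[X]) ^ Q ∣ r j0 ^ 2 - s j0 ^ 2 * f ^ (Q + 1) := by
    have h1 : r j0 ^ 2 - s j0 ^ 2 * f ^ (Q + 1) =
        (r j0 + s j0 * f ^ T) * (r j0 - s j0 * f ^ T) := by
      rw [← hT]
      ring
    rw [h1]
    exact Dvd.dvd.mul_right hd1 _
  have hd3 : (X : K[X]) ^ Q ∣ f ^ Q - C (f.eval 0 ^ Q) := by
    have h1 : (X : K[X]) ∣ f - C (f.eval 0) := by
      rw [X_dvd_iff]
      simp [coeff_zero_eq_eval_zero]
    have h2 : f ^ Q - C (f.eval 0 ^ Q) = (f - C (f.eval 0)) ^ Q := by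
      rw [hQ, sub_pow_char_pow, C_pow]
    rw [h2]
    exact pow_dvd_pow_of_dvd h1 Q
  have hd4 : (X : K[X]) ^ Q ∣ r j0 ^ 2 - C (f.eval 0 ^ Q) * s j0 ^ 2 * f := by
    have h1 : r j0 ^ 2 - C (f.eval 0 ^ Q) * s j0 ^ 2 * f =
        (r j0 ^ 2 - s j0 ^ 2 * f ^ (Q + 1)) + (s j0 ^ 2 * f) * (f ^ Q - C (f.eval 0 ^ Q)) := by
      ring
    rw [h1]
    exact dvd_add hd2 (Dvd.dvd.mul_left hd3 _)
  have hQ0 : 0 < Q := by omega
  have hTpos : 0 < T := by omega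
  have hTd : d < T := by omega
  have hrd : (r j0).natDegree ≤ T - 1 := by
    by_cases h : r j0 = 0
    · rw [h]; simp
    · have := (natDegree_lt_iff_degree_lt h).2 (hr j0)
      omega
  have hsd : (s j0).natDegree ≤ T - d - 1 := by
    by_cases h : s j0 = 0
    · rw [h]; simp
    · have := (natDegree_lt_iff_degree_lt h).2 (hs j0)
      omega
  have hdeg : (r j0 ^ 2 - C (f.eval 0 ^ Q) * s j0 ^ 2 * f).natDegree < ((X : K[X]) ^ Q).natDegree := by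
    rw [natDegree_X_pow]
    have h1 : (r j0 ^ 2).natDegree ≤ 2 * (T - 1) :=
      (natDegree_pow_le).trans (Nat.mul_le_mul_left _ hrd)
    have h2 : (C (f.eval 0 ^ Q) * s j0 ^ 2 * f).natDegree ≤ 2 * (T - d - 1) + 2 * d := by
      refine natDegree_mul_le.trans (add_le_add ?_ hf)
      refine (natDegree_C_mul_le _ _).trans ?_
      exact (natDegree_pow_le).trans (Nat.mul_le_mul_left _ hsd)
    have h3 := natDegree_sub_le (r j0 ^ 2) (C (f.eval 0 ^ Q) * s j0 ^ 2 * f)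
    have h4 : max (r j0 ^ 2).natDegree (C (f.eval 0 ^ Q) * s j0 ^ 2 * f).natDegree ≤ Q - 1 :=
      max_le (by omega) (by omega)
    omega
  have heq := eq_zero_of_dvd_of_natDegree_lt hd4 hdeg
  have heq2 : r j0 ^ 2 = C (f.eval 0 ^ Q) * s j0 ^ 2 * f := sub_eq_zero.1 heq
  have hs0 : s j0 = 0 := hNS _ _ _ (pow_ne_zero _ f0) heq2
  rw [hs0] at heq2
  have hr0 : r j0 = 0 := by
    have : r j0 ^ 2 = 0 := by rw [heq2]; ring
    exact pow_eq_zero_iff (two_ne_zero) |>.1 this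
  rcases hj0ne with h | h
  · exact h hr0
  · exact h hs0

end Pool.Agent.H11.KW
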