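import Pool.Agent.H11.KW.St1
import Pool.Agent.H11.KW.St2

/-!
# [H11 KW ST3] Stepanov's bound

`|K| = q = Q^2`, `Q = p^n` odd, `T = (Q+1)/2`, `J = T + d`.

Proof.  Take `r, s` of `exists_rs` and `P = ∑_{j<J} (r_j + s_j f^T) X^(jQ)`, nonzero by `aux_ne_zero`.
Let `x ∈ K`, `f(x)^((q-1)/2) = -1`.  Then (characteristic `p`, `Q = p^n`; evaluate)
`P(x)^Q = ∑_j (r_j(x)^Q + s_j(x)^Q f(x)^(Q T)) x^(j Q^2)`, `x^(Q^2) = x^q = x` and
`Q T = Q (Q+1)/2 = (Q^2-1)/2 + (Q+1)/2`, so `f(x)^(QT) = - f(x)^T` and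
`P(x)^Q = ∑_j (r_j(x)^Q - s_j(x)^Q f(x)^T) x^j = 0` by `exists_rs`.  So `P(x) = 0`, and the number of
such `x` is at most `natDegree P ≤ (J-1) Q + 2 d T + (T - d - 1)` (the first part has degree
`≤ (J-1) Q + T - 1`, which is smaller because `2 d T ≥ d`), `= (T + d - 1) Q + d (Q+1) + T - d - 1
= (Q^2+Q)/2 - Q + 2 d Q + (Q+1)/2 - 1 = (Q^2-1)/2 + 2 d Q`.
-/

namespace Pool.Agent.H11.KW

open Finset Polynomial

theorem stepanov {K : Type} [Field K] [Fintype K] {p n : ℕ} [Fact p.Prime] [CharP K p]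
    (hodd : Odd (p ^ n)) (hK : Fintype.card K = (p ^ n) ^ 2) (f : K[X]) (d : ℕ)
    (hf : f.natDegree ≤ 2 * d) (hd : 2 * d < p ^ n) (f0 : f.eval 0 ≠ 0)
    (hNS : ∀ (r s : K[X]) (γ : K), γ ≠ 0 → r ^ 2 = C γ * s ^ 2 * f → s = 0) :
    Nat.card {x : K // f.eval x ^ ((Fintype.card K - 1) / 2) = -1} ≤
      ((p ^ n) ^ 2 - 1) / 2 + 2 * d * p ^ n := by
  classical
  obtain ⟨r, s, hr, hs, hne, hsum⟩ := exists_rs hodd f d hf hd
  obtain ⟨P, hP⟩ : ∃ P : K[X], P = ∑ j ∈ range ((p ^ n + 1) / 2 + d),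
      (r j + s j * f ^ ((p ^ n + 1) / 2)) * X ^ (j * p ^ n) := ⟨_, rfl⟩
  have hP0 : P ≠ 0 := by
    rw [hP]
    exact aux_ne_zero hodd f d hf hd f0 hNS r s hr hs _ hne
  obtain ⟨Q, hQ⟩ : ∃ Q : ℕ, Q = p ^ n := ⟨_, rfl⟩
  obtain ⟨k, hk⟩ := hodd
  rw [← hQ] at hk hK hd
  have hT : (Q + 1) / 2 = k + 1 := by omega
  have hroot : ∀ x : K, f.eval x ^ ((Fintype.card K - 1) / 2) = -1 → P.eval x = 0 := by
    intro x hx
    have hxq : x ^ (Q * Q) = x := by
      have h1 := FiniteField.pow_card x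
      rw [hK, sq] at h1
      exact h1
    have hfT : f.eval x ^ ((Q + 1) / 2 * Q) = -f.eval x ^ ((Q + 1) / 2) := by
      have h1 : (Q + 1) / 2 * Q = (Fintype.card K - 1) / 2 + (Q + 1) / 2 := by
        rw [hK, hT, hk]
        have h2 : (2 * k + 1) ^ 2 - 1 = 2 * (2 * k * (k + 1)) := by
          have h3 : (2 * k + 1) ^ 2 = 2 * (2 * k * (k + 1)) + 1 := by ring
          omega
        rw [h2, Nat.mul_div_cancel_left _ two_pos]
        ring
      rw [h1, pow_add, hx]
      ring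
    have h1 : P.eval x ^ Q = 0 := by
      have h2 : P.eval x = ∑ j ∈ range ((p ^ n + 1) / 2 + d),
          ((r j).eval x + (s j).eval x * f.eval x ^ ((p ^ n + 1) / 2)) * x ^ (j * p ^ n) := by
        rw [hP, eval_finsetSum]
        refine Finset.sum_congr rfl fun j _ => ?_
        simp only [eval_mul, eval_add, eval_pow, eval_X]
      rw [h2, hQ, sum_pow_char_pow]
      have h3 := congrArg (fun g : K[X] => g.eval x) hsum
      simp only [eval_finsetSum, eval_zero] at h3
      rw [← h3]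
      refine Finset.sum_congr rfl fun j _ => ?_
      rw [mul_pow, add_pow_char_pow, mul_pow, ← hQ, ← pow_mul (f.eval x), hfT, ← pow_mul x,
        mul_assoc, mul_comm j, pow_mul x, hxq]
      simp only [eval_mul, eval_sub, eval_pow, eval_X]
      ring
    exact (pow_eq_zero_iff (by omega : Q ≠ 0)).1 h1
  have hdeg : P.natDegree ≤ (Q ^ 2 - 1) / 2 + 2 * d * Q := by
    rw [hP]
    refine natDegree_sum_le_of_forall_le _ _ fun j hj => ?_
    have hj' := Finset.mem_range.1 hj
    refine natDegree_mul_le.trans ?_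
    have e1 : (r j).natDegree ≤ k := by
      by_cases h0 : r j = 0
      · rw [h0, natDegree_zero]
        exact Nat.zero_le _
      · have h1 := (natDegree_lt_iff_degree_lt h0).2 (hr j)
        rw [← hQ, hT] at h1
        omega
    have e2 : (s j).natDegree + d ≤ k := by
      by_cases h0 : s j = 0
      · rw [h0, natDegree_zero]
        omega
      · have h1 := (natDegree_lt_iff_degree_lt h0).2 (hs j)
        rw [← hQ, hT] at h1
        omega
    have e3 : (s j * f ^ ((p ^ n + 1) / 2)).natDegree + d ≤ k + 2 * d * (k + 1) := by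
      have h1 := natDegree_mul_le (p := s j) (q := f ^ ((p ^ n + 1) / 2))
      have h2 : (f ^ ((p ^ n + 1) / 2)).natDegree ≤ (k + 1) * (2 * d) := by
        refine natDegree_pow_le.trans ?_
        rw [← hQ, hT]
        exact Nat.mul_le_mul_left _ hf
      have h3 : (k + 1) * (2 * d) = 2 * d * (k + 1) := mul_comm _ _
      omega
    have e4 : (r j + s j * f ^ ((p ^ n + 1) / 2)).natDegree + d ≤ k + 2 * d * (k + 1) := by
      have h1 := natDegree_add_le (r j) (s j * f ^ ((p ^ n + 1) / 2))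
      have h2 : d ≤ 2 * d * (k + 1) := by nlinarith
      rcases le_total (r j).natDegree (s j * f ^ ((p ^ n + 1) / 2)).natDegree with h3 | h3
      · rw [max_eq_right h3] at h1
        omega
      · rw [max_eq_left h3] at h1
        omega
    have e5 : (X ^ (j * p ^ n) : K[X]).natDegree = j * Q := by
      rw [natDegree_X_pow, hQ]
    rw [← hQ, hT] at hj'
    have e6 : j * Q + Q ≤ (k + 1 + d) * Q := by
      have h1 : j + 1 ≤ k + 1 + d := hj'
      calc j * Q + Q = (j + 1) * Q := by ring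
        _ ≤ (k + 1 + d) * Q := Nat.mul_le_mul_right _ h1
    rw [e5]
    have e7 : (Q ^ 2 - 1) / 2 = 2 * k * (k + 1) := by
      rw [hk]
      have h2 : (2 * k + 1) ^ 2 - 1 = 2 * (2 * k * (k + 1)) := by
        have h3 : (2 * k + 1) ^ 2 = 2 * (2 * k * (k + 1)) + 1 := by ring
        omega
      rw [h2, Nat.mul_div_cancel_left _ two_pos]
    rw [e7]
    have e8 : (k + 1 + d) * Q + k + 2 * d * (k + 1) = 2 * k * (k + 1) + 2 * d * Q + Q + d := by
      rw [hk]
      ring
    omega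
  have hcard : Nat.card {x : K // f.eval x ^ ((Fintype.card K - 1) / 2) = -1} ≤
      P.natDegree := by
    rw [Nat.card_eq_fintype_card, Fintype.card_subtype]
    have h1 : (Finset.univ.filter fun x : K =>
        f.eval x ^ ((Fintype.card K - 1) / 2) = -1) ⊆ P.roots.toFinset := by
      intro x hx
      rw [Multiset.mem_toFinset, mem_roots hP0]
      exact hroot x (Finset.mem_filter.1 hx).2
    exact (Finset.card_le_card h1).trans ((Multiset.toFinset_card_le _).trans (card_roots' P))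
  rw [← hQ]
  exact hcard.trans hdeg

end Pool.Agent.H11.KW
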