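import Pool.Agent.H11.KW.Ext

/-!
# [H11 KW TOW] The tower of quadratic extensions

`sg p z j`: `sg 0 = z`, `sg (j+1) = 2 p^(2^j) - (sg j)^2`.

Proof.  Induction on `j`.  `j = 0`: `K = ZMod p`, the trace of `ZMod p` over itself is the identity
(`Algebra.trace_self_apply`), `algebraMap = id`.  Step: `L = FiniteField.Extension K p 2` (Mathlib,
`FieldTheory/Finite/Extension.lean`; instances Field, Finite, Algebra (ZMod p), Algebra K, IsScalarTower),
`Nat.card L = (Nat.card K)^2`, `Module.finrank K L = 2`.  `trc K L (trc (ZMod p) K ψ) = trc (ZMod p) L ψ`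
(`Algebra.trace_trace`), `algebraMap (ZMod p) L = algebraMap K L ∘ algebraMap (ZMod p) K`
(`IsScalarTower.algebraMap_apply`), `trc (ZMod p) K ψ ≠ 1` as the trace is surjective
(`Algebra.trace_surjective`).  Apply `kf_ext`.
-/

namespace Pool.Agent.H11.KW

open Finset

/-- the recursion -/
noncomputable def sg (p : ℕ) (z : ℂ) : ℕ → ℂ
  | 0 => z
  | (j + 1) => 2 * (p : ℂ) ^ (2 ^ j) - (sg p z j) ^ 2

theorem tower {p : ℕ} [Fact p.Prime] (hp : p ≠ 2) (ψ : AddChar (ZMod p) ℂ) (hψ : ψ ≠ 1) (j : ℕ) :
    ∃ (K : Type) (_ : Field K) (_ : Fintype K) (_ : Algebra (ZMod p) K),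
      Fintype.card K = p ^ (2 ^ j) ∧ ∀ a b : ZMod p, a ≠ 0 → b ≠ 0 →
        kf (trc (ZMod p) K ψ) (algebraMap (ZMod p) K a) (algebraMap (ZMod p) K b) =
          sg p (kf ψ a b) j := by
  induction j with
  | zero =>
    refine ⟨ZMod p, inferInstance, inferInstance, Algebra.id _, ?_, ?_⟩
    · rw [pow_zero, pow_one, ZMod.card]
    · intro a b _ _
      have e : trc (ZMod p) (ZMod p) ψ = ψ := by
        ext x
        simp [trc]
      rw [e]
      rfl
  | succ j ih =>
    obtain ⟨K, iF, iFt, iA, hcard, hK⟩ := ih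
    have hch : CharP K p := charP_of_injective_algebraMap (algebraMap (ZMod p) K).injective p
    have h2K : (2 : K) ≠ 0 := by
      intro h0
      have h1 : ((2 : ℕ) : K) = 0 := by exact_mod_cast h0
      have h2 := (CharP.cast_eq_zero_iff K p 2).1 h1
      exact hp ((Nat.prime_dvd_prime_iff_eq (Fact.out : p.Prime) Nat.prime_two).1 h2)
    let iL : Fintype (FiniteField.Extension K p 2) := Fintype.ofFinite _
    have hfr : Module.finrank K (FiniteField.Extension K p 2) = 2 :=
      FiniteField.finrank_extension K p 2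
    refine ⟨FiniteField.Extension K p 2, inferInstance, iL, inferInstance, ?_, ?_⟩
    · rw [Fintype.card_eq_nat_card, FiniteField.natCard_extension, ← Fintype.card_eq_nat_card,
        hcard, ← pow_mul, pow_succ]
    · intro a b ha hb
      have hψ' : trc (ZMod p) K ψ ≠ 1 := by
        intro h1
        apply hψ
        ext x
        obtain ⟨y, hy⟩ := Algebra.trace_surjective (ZMod p) K x
        have h3 : trc (ZMod p) K ψ y = 1 := by rw [h1]; rfl
        have h4 : trc (ZMod p) K ψ y = ψ (Algebra.trace (ZMod p) K y) := rfl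
        rw [h4, hy] at h3
        rw [h3]; rfl
      have ha' : algebraMap (ZMod p) K a ≠ 0 := by
        rwa [Ne, FaithfulSMul.algebraMap_eq_zero_iff]
      have hb' : algebraMap (ZMod p) K b ≠ 0 := by
        rwa [Ne, FaithfulSMul.algebraMap_eq_zero_iff]
      have key := kf_ext hfr h2K (trc (ZMod p) K ψ) hψ' _ _ ha' hb'
      have etr : trc K (FiniteField.Extension K p 2) (trc (ZMod p) K ψ) =
          trc (ZMod p) (FiniteField.Extension K p 2) ψ := by
        ext x
        show ψ (Algebra.trace (ZMod p) K (Algebra.trace K (FiniteField.Extension K p 2) x)) =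
          ψ (Algebra.trace (ZMod p) (FiniteField.Extension K p 2) x)
        rw [Algebra.trace_trace]
      rw [etr, ← IsScalarTower.algebraMap_apply, ← IsScalarTower.algebraMap_apply,
        hK a b ha hb, hcard] at key
      rw [key]
      show 2 * ((p ^ 2 ^ j : ℕ) : ℂ) - (sg p (kf ψ a b) j) ^ 2 =
        2 * (p : ℂ) ^ (2 ^ j) - (sg p (kf ψ a b) j) ^ 2
      push_cast
      ring

end Pool.Agent.H11.KW
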