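import Pool.Agent.H11.KW.Tow
import Pool.Agent.H11.KW.Cnt
import Pool.Agent.H11.KW.Low
import Pool.Agent.H11.KW.Rec

/-!
# [H11 KW WEIL] Weil's bound for Kloosterman sums modulo an odd prime

Proof.  (1) `kf ψ a b` is real: `conj ψ(z) = ψ(-z)` and `x ↦ -x` (a sum of the form
`∑_x if x = 0 then 0 else ψ(a x + b x⁻¹)`).  So there are reals `S_t = kf ψ (t a) (t b)`, `t ≠ 0`, and
`σ_j(t) := Re (sg p (S_t) j)` satisfies `sg p S_t j = σ_j(t)` (real), `σ_(j+1) = 2 p^(2^j) - σ_j^2`.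
(2) For every `j` let `K` be the field of `tower` for `j + 1`: `|K| = p^(2^(j+1)) = (p^n)^2`, `n = 2^j`.
`sum_kf` and `chi_lower` (`c = 4 algebraMap (a b) ≠ 0`; `CharP K p` from the algebra structure,
`charP_of_injective_algebraMap`), if `2 p < p^n` (true for `n = 2^j ≥ 2`, `p ≥ 3`... note `2 p < p^2`):
`∑_{t ≠ 0} σ_{j+1}(t) ≥ 1 - 4 p p^n - 2 p ≥ - (6 p) p^(2^j)`.
(3) `rec_bound` with `T = {t : ZMod p // t ≠ 0}`, `C = 6 p`, `j0 = 1`, at `t = 1`: `|kf ψ a b| ≤ 2 √p`.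
-/

namespace Pool.Agent.H11.KW

open Finset

private theorem kf_conj {K : Type} [Field K] [Fintype K] (ψ : AddChar K ℂ) (a b : K) :
    (starRingEnd ℂ) (kf ψ a b) = kf ψ a b := by
  classical
  unfold kf
  rw [map_sum]
  refine Fintype.sum_bijective (fun x => -x) (Equiv.neg K).bijective _ _ (fun x => ?_)
  by_cases hx : x = 0
  · simp [hx]
  · rw [if_neg hx, if_neg (neg_ne_zero.mpr hx), ← AddChar.map_neg_eq_conj]
    congr 1
    rw [inv_neg]
    ring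

private theorem sg_conj (p : ℕ) (z : ℂ) (hz : (starRingEnd ℂ) z = z) (j : ℕ) :
    (starRingEnd ℂ) (sg p z j) = sg p z j := by
  induction j with
  | zero => exact hz
  | succ j ih =>
    show (starRingEnd ℂ) (2 * (p : ℂ) ^ (2 ^ j) - (sg p z j) ^ 2) = _
    rw [map_sub, map_pow, ih, map_mul, map_pow, Complex.conj_natCast, map_ofNat]
    rfl

theorem weil {p : ℕ} [Fact p.Prime] (hp : p ≠ 2) (ψ : AddChar (ZMod p) ℂ) (hψ : ψ ≠ 1)
    (a b : ZMod p) (ha : a ≠ 0) (hb : b ≠ 0) : ‖kf ψ a b‖ ≤ 2 * √(p : ℝ) := by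
  classical
  have hpp : p.Prime := Fact.out
  have hp3 : 3 ≤ p := by
    have := hpp.two_le
    omega
  let σ : ℕ → {t : ZMod p // t ≠ 0} → ℝ := fun j t => (sg p (kf ψ (t.1 * a) (t.1 * b)) j).re
  have hreal : ∀ j t, sg p (kf ψ ((t : {t : ZMod p // t ≠ 0}).1 * a) (t.1 * b)) j =
      ((σ j t : ℝ) : ℂ) := fun j t => (Complex.conj_eq_iff_re.mp (sg_conj p _ (kf_conj ψ _ _) j)).symm
  have h0 : ∀ j t, σ (j + 1) t = 2 * (p : ℝ) ^ (2 ^ j) - σ j t ^ 2 := by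
    intro j t
    have h1 : ((σ (j + 1) t : ℝ) : ℂ) = 2 * (p : ℂ) ^ (2 ^ j) - ((σ j t : ℝ) : ℂ) ^ 2 := by
      rw [← hreal, ← hreal]
      rfl
    exact_mod_cast h1
  have hmain : ∀ j ≥ 1, -(6 * (p : ℝ) * (p : ℝ) ^ (2 ^ j)) ≤ ∑ t, σ (j + 1) t := by
    intro j hj
    obtain ⟨K, _, _, _, hcard, hK⟩ := tower hp ψ hψ (j + 1)
    have : CharP K p := charP_of_injective_algebraMap (algebraMap (ZMod p) K).injective p
    have hn : 2 * p < p ^ (2 ^ j) := by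
      have h2 : 2 ≤ 2 ^ j := by
        calc 2 = 2 ^ 1 := by norm_num
          _ ≤ 2 ^ j := Nat.pow_le_pow_right (by norm_num) hj
      calc 2 * p < p * p := by nlinarith
        _ = p ^ 2 := by ring
        _ ≤ p ^ (2 ^ j) := Nat.pow_le_pow_right (by omega) h2
    have hcard' : Fintype.card K = (p ^ (2 ^ j)) ^ 2 := by
      rw [hcard, ← pow_mul, pow_succ]
    have hne : (4 : K) * algebraMap (ZMod p) K (a * b) ≠ 0 := by
      have hc : ringChar K ≠ 2 := by rw [ringChar.eq K p]; exact hp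
      have h2 : (2 : K) ≠ 0 := Ring.two_ne_zero hc
      have h4 : (4 : K) = 2 * 2 := by norm_num
      rw [h4]
      exact mul_ne_zero (mul_ne_zero h2 h2)
        ((map_ne_zero_iff _ (algebraMap (ZMod p) K).injective).mpr (mul_ne_zero ha hb))
    have hlow := chi_lower hp hcard' hn _ hne
    have hsum := sum_kf (K := K) hp ψ hψ a b ha hb
    have hl : ∑ t ∈ (univ : Finset (ZMod p)).erase 0, kf (trc (ZMod p) K ψ)
        (algebraMap (ZMod p) K (t * a)) (algebraMap (ZMod p) K (t * b)) =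
        ((∑ t, σ (j + 1) t : ℝ) : ℂ) := by
      rw [Finset.sum_subtype (p := fun t : ZMod p => t ≠ 0) _ (by simp)]
      rw [Complex.ofReal_sum]
      refine Finset.sum_congr rfl fun t _ => ?_
      rw [hK _ _ (mul_ne_zero t.2 ha) (mul_ne_zero t.2 hb), hreal]
    rw [hl] at hsum
    have hsum' : (∑ t, σ (j + 1) t) = 1 + ((∑ y : K, quadraticChar K
        ((y ^ p - y) ^ 2 - 4 * algebraMap (ZMod p) K (a * b)) : ℤ) : ℝ) := by
      have : ((∑ t, σ (j + 1) t : ℝ) : ℂ) = ((1 + ((∑ y : K, quadraticChar K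
        ((y ^ p - y) ^ 2 - 4 * algebraMap (ZMod p) K (a * b)) : ℤ) : ℝ) : ℝ) : ℂ) := by
        rw [hsum]
        push_cast
        rfl
      exact_mod_cast this
    rw [hsum']
    have hlow' : (-(4 * (p : ℝ) * (p : ℝ) ^ (2 ^ j) + 2 * p)) ≤ ((∑ y : K, quadraticChar K
        ((y ^ p - y) ^ 2 - 4 * algebraMap (ZMod p) K (a * b)) : ℤ) : ℝ) := by
      exact_mod_cast hlow
    have hpow : (1 : ℝ) ≤ (p : ℝ) ^ (2 ^ j) := one_le_pow₀ (by exact_mod_cast hpp.one_lt.le)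
    have hppos : (0 : ℝ) < p := by exact_mod_cast hpp.pos
    nlinarith
  have hfin := rec_bound σ (p : ℝ) (by exact_mod_cast hpp.one_lt) h0 (6 * p) 1 hmain
    ⟨1, one_ne_zero⟩
  have h1 : kf ψ a b = ((σ 0 ⟨1, one_ne_zero⟩ : ℝ) : ℂ) := by
    rw [← hreal]
    simp [sg]
  rw [h1, Complex.norm_real, Real.norm_eq_abs]
  exact hfin

end Pool.Agent.H11.KW
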