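import Pool.Agent.H11.KW.Defs

/-!
# Kloosterman fractions modulo `q`: definition (helper11)
-/

namespace Pool.Agent.H11.KW

open Finset

/-- `e(c a⁻¹ / q)` if `a` is coprime to `q`, and `0` otherwise -/
noncomputable def ek (q : ℕ) [NeZero q] (c : ZMod q) (a : ℕ) : ℂ :=
  if Nat.Coprime a q then ZMod.stdAddChar (c * ((a : ZMod q))⁻¹) else 0

end Pool.Agent.H11.KW
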