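import Pool.Agent.H11.KW.ZDef

/-!
# [H11 KW ZI] Incomplete Kloosterman sums by completion

Proof.  `ek q c` has period `q` in `a`.  For `a : ℕ`: by orthogonality on `ZMod q`
`ek q c a = (1/q) ∑_{u : ZMod q} (∑_{x unit} stdAddChar (c x⁻¹ + u x)) stdAddChar (-u a)
= (1/q) ∑_u kz q u c stdAddChar (-u a)` (the inner sum over `u` of `stdAddChar (u (x - a))` is `q` if
`x = a` in `ZMod q` and `0` otherwise; if `a` is not coprime to `q` there is no unit `x = a`).
Sum over `a ∈ (M, M+N]`: `u = 0` gives `N kz q 0 c / q`.  For `u ≠ 0`, `u = ±m`, `1 ≤ m ≤ q/2`: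
`|∑_{a} stdAddChar (-u a)| ≤ 1/|sin(π m/q)| ≤ q/(2 m)` (geometric sum, Jordan).  Every `m` with
`1 ≤ m ≤ q/2` occurs for at most two `u`, so the total over `u ≠ 0` is
`≤ (K1/q) ∑_{m ≤ q/2} 2 * q/(2m) ≤ K1 (1 + log q)`.
-/

namespace Pool.Agent.H11.KW

open Finset

private theorem ek_orth (q : ℕ) [NeZero q] (c : ZMod q) (a : ℕ) :
    (q : ℂ) * ek q c a = ∑ u : ZMod q, kz q u c * ZMod.stdAddChar (-(u * (a : ZMod q))) := by
  classical
  have e1 : ∑ u : ZMod q, kz q u c * ZMod.stdAddChar (-(u * (a : ZMod q))) =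
      ∑ x : (ZMod q)ˣ, ZMod.stdAddChar (c * ((x⁻¹ : (ZMod q)ˣ) : ZMod q)) *
        ∑ u : ZMod q, ZMod.stdAddChar (u * ((x : ZMod q) - (a : ZMod q))) := by
    unfold kz
    simp_rw [Finset.sum_mul, Finset.mul_sum]
    rw [Finset.sum_comm]
    refine Finset.sum_congr rfl fun x _ => Finset.sum_congr rfl fun u _ => ?_
    rw [← AddChar.map_add_eq_mul, ← AddChar.map_add_eq_mul]
    congr 1
    ring
  have e2 : ∀ x : (ZMod q)ˣ, ∑ u : ZMod q, (ZMod.stdAddChar (u * ((x : ZMod q) - (a : ZMod q))) : ℂ) =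
      if (x : ZMod q) = (a : ZMod q) then (q : ℂ) else 0 := by
    intro x
    rw [AddChar.sum_mulShift _ (ZMod.isPrimitive_stdAddChar q), ZMod.card]
    by_cases h : (x : ZMod q) = (a : ZMod q)
    · rw [if_pos (sub_eq_zero.2 h), if_pos h]
    · rw [if_neg (fun h1 => h (sub_eq_zero.1 h1)), if_neg h, Nat.cast_zero]
  rw [e1]
  simp_rw [e2]
  unfold ek
  by_cases h : Nat.Coprime a q
  · rw [if_pos h, Finset.sum_eq_single (ZMod.unitOfCoprime a h)]
    · rw [ZMod.coe_unitOfCoprime, if_pos rfl, ← ZMod.inv_coe_unit, ZMod.coe_unitOfCoprime, mul_comm]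
    · intro x _ hx
      rw [if_neg, mul_zero]
      intro h1
      exact hx (Units.ext (h1.trans (ZMod.coe_unitOfCoprime a h).symm))
    · intro h1
      exact absurd (Finset.mem_univ _) h1
  · rw [if_neg h, mul_zero]
    symm
    refine Finset.sum_eq_zero fun x _ => ?_
    rw [if_neg, mul_zero]
    intro h1
    apply h
    rw [← ZMod.isUnit_iff_coprime, ← h1]
    exact x.isUnit

private theorem ek_sin {q v : ℕ} (hv : 1 ≤ v) (hvq : v < q) :
    0 < Real.sin (Real.pi * v / q) ∧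
      (Real.sin (Real.pi * v / q))⁻¹ ≤ (q : ℝ) / 2 * ((v : ℝ)⁻¹ + ((q - v : ℕ) : ℝ)⁻¹) := by
  have hq : (0 : ℝ) < q := by exact_mod_cast Nat.zero_lt_of_lt hvq
  have hv0 : (0 : ℝ) < v := by exact_mod_cast hv
  have hw0 : (0 : ℝ) < ((q - v : ℕ) : ℝ) := by exact_mod_cast Nat.sub_pos_of_lt hvq
  have hw : ((q - v : ℕ) : ℝ) = q - v := Nat.cast_sub hvq.le
  have key : ∀ t : ℝ, 0 < t → t ≤ q / 2 → 2 * t / q ≤ Real.sin (Real.pi * t / q) := by
    intro t ht ht2
    have h1 : Real.pi * t / q ≤ Real.pi / 2 := by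
      rw [div_le_div_iff₀ hq two_pos]
      nlinarith [Real.pi_pos]
    have h2 := Real.mul_le_sin (x := Real.pi * t / q) (by positivity) h1
    have h3 : 2 / Real.pi * (Real.pi * t / q) = 2 * t / q := by
      field_simp
    rwa [h3] at h2
  have hinv : ∀ t : ℝ, 0 < t → t ≤ q / 2 → 0 < Real.sin (Real.pi * t / q) ∧
      (Real.sin (Real.pi * t / q))⁻¹ ≤ q / 2 * t⁻¹ := by
    intro t ht ht2
    have h1 := key t ht ht2
    have h2 : (0 : ℝ) < 2 * t / q := by positivity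
    refine ⟨h2.trans_le h1, ?_⟩
    refine (inv_anti₀ h2 h1).trans (le_of_eq ?_)
    field_simp
  rcases le_total (v : ℝ) (q / 2) with h | h
  · obtain ⟨h1, h2⟩ := hinv v hv0 h
    refine ⟨h1, h2.trans ?_⟩
    have h3 : (0 : ℝ) ≤ ((q - v : ℕ) : ℝ)⁻¹ := (inv_pos.2 hw0).le
    nlinarith
  · obtain ⟨h1, h2⟩ := hinv ((q - v : ℕ) : ℝ) hw0 (by rw [hw]; linarith)
    have h4 : Real.sin (Real.pi * ((q - v : ℕ) : ℝ) / q) = Real.sin (Real.pi * v / q) := by
      rw [hw, mul_sub, sub_div, mul_div_assoc Real.pi (q : ℝ) q, div_self hq.ne', mul_one,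
        Real.sin_pi_sub]
    rw [h4] at h1 h2
    refine ⟨h1, h2.trans ?_⟩
    have h3 : (0 : ℝ) ≤ (v : ℝ)⁻¹ := (inv_pos.2 hv0).le
    nlinarith

private theorem ek_geom (q : ℕ) [NeZero q] (u : ZMod q) (hu : u ≠ 0) (M N : ℕ) :
    ‖∑ a ∈ Ioc M (M + N), (ZMod.stdAddChar (-(u * (a : ZMod q))) : ℂ)‖ ≤
      (q : ℝ) / 2 * ((u.val : ℝ)⁻¹ + ((q - u.val : ℕ) : ℝ)⁻¹) := by
  have hv : 1 ≤ u.val := Nat.one_le_iff_ne_zero.2 (fun h => hu ((ZMod.val_eq_zero u).1 h))
  have hvq : u.val < q := ZMod.val_lt u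
  obtain ⟨hs0, hs⟩ := ek_sin hv hvq
  set z : ℂ := ZMod.stdAddChar (-u) with hz
  have hq0 : (q : ℂ) ≠ 0 := Nat.cast_ne_zero.2 (NeZero.ne q)
  have hza : ∀ a : ℕ, (ZMod.stdAddChar (-(u * (a : ZMod q))) : ℂ) = z ^ a := by
    intro a
    rw [hz, ← AddChar.map_nsmul_eq_pow]
    congr 1
    rw [nsmul_eq_mul]
    ring
  have hzn : ‖z‖ = 1 := by
    rw [hz, ZMod.stdAddChar_apply]
    exact Circle.norm_coe _
  have hz1 : ‖z - 1‖ = 2 * Real.sin (Real.pi * u.val / q) := by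
    have h1 : z = Complex.exp (Complex.I * ((-(2 * Real.pi * u.val / q) : ℝ) : ℂ)) := by
      have h2 : -u = (((-(u.val : ℤ)) : ℤ) : ZMod q) := by
        push_cast
        rw [ZMod.natCast_zmod_val]
      rw [hz, h2, ZMod.stdAddChar_coe]
      congr 1
      push_cast
      ring
    rw [h1, Complex.norm_exp_I_mul_ofReal_sub_one, norm_mul, Real.norm_eq_abs, Real.norm_eq_abs,
      abs_two]
    have h3 : -(2 * Real.pi * u.val / q) / 2 = -(Real.pi * u.val / q) := by ring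
    rw [h3, Real.sin_neg, abs_neg, abs_of_pos hs0]
  have hzne : z ≠ 1 := by
    intro h
    rw [h, sub_self, norm_zero] at hz1
    linarith
  have hsum : ∑ a ∈ Ioc M (M + N), (ZMod.stdAddChar (-(u * (a : ZMod q))) : ℂ) =
      z ^ (M + 1) * ((z ^ N - 1) / (z - 1)) := by
    rw [← geom_sum_eq hzne, Finset.mul_sum]
    simp_rw [hza]
    rw [Finset.range_eq_Ico]
    have h1 : Ioc M (M + N) = (Finset.Ico 0 N).image (fun i => M + 1 + i) := by
      ext a
      simp only [Finset.mem_Ioc, Finset.mem_image, Finset.mem_Ico]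
      constructor
      · rintro ⟨h2, h3⟩
        exact ⟨a - (M + 1), ⟨Nat.zero_le _, by omega⟩, by omega⟩
      · rintro ⟨i, ⟨-, h2⟩, rfl⟩
        omega
    rw [h1, Finset.sum_image (fun i _ j _ h => by
      have h2 : M + 1 + i = M + 1 + j := h
      omega)]
    exact Finset.sum_congr rfl fun i _ => pow_add z (M + 1) i
  rw [hsum, norm_mul, norm_pow, hzn, one_pow, one_mul, norm_div, hz1]
  have h5 : ‖z ^ N - 1‖ ≤ 2 := by
    refine (norm_sub_le _ _).trans ?_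
    rw [norm_pow, hzn, one_pow, norm_one]
    norm_num
  refine le_trans ?_ hs
  rw [div_le_iff₀ (by positivity), mul_left_comm, inv_mul_cancel₀ hs0.ne', mul_one]
  exact h5

private theorem ek_harm (q : ℕ) [NeZero q] :
    ∑ u ∈ (Finset.univ : Finset (ZMod q)).erase 0,
      ((q : ℝ) / 2 * ((u.val : ℝ)⁻¹ + ((q - u.val : ℕ) : ℝ)⁻¹)) ≤ q * (1 + Real.log q) := by
  have hq : 0 < q := NeZero.pos q
  have h1 : ∑ u ∈ (Finset.univ : Finset (ZMod q)).erase 0,
      ((q : ℝ) / 2 * ((u.val : ℝ)⁻¹ + ((q - u.val : ℕ) : ℝ)⁻¹)) =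
      ∑ v ∈ Finset.Ico 1 q, ((q : ℝ) / 2 * ((v : ℝ)⁻¹ + ((q - v : ℕ) : ℝ)⁻¹)) := by
    refine Finset.sum_nbij (fun u => u.val) ?_ ?_ ?_ ?_
    · intro u hu
      have h2 : u ≠ 0 := Finset.ne_of_mem_erase hu
      rw [Finset.mem_Ico]
      exact ⟨Nat.one_le_iff_ne_zero.2 (fun h => h2 ((ZMod.val_eq_zero u).1 h)), ZMod.val_lt u⟩
    · intro u _ w _ h
      exact ZMod.val_injective q h
    · intro v hv
      have h2 := Finset.mem_Ico.1 (Finset.mem_coe.1 hv)
      have h3 : ((v : ZMod q)).val = v := ZMod.val_natCast_of_lt h2.2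
      refine ⟨(v : ZMod q), ?_, h3⟩
      rw [Finset.mem_coe, Finset.mem_erase]
      refine ⟨fun h => ?_, Finset.mem_univ _⟩
      rw [h, ZMod.val_zero] at h3
      omega
    · intro u _
      rfl
  rw [h1, ← Finset.mul_sum, Finset.sum_add_distrib]
  have h2 : ∑ v ∈ Finset.Ico 1 q, ((q - v : ℕ) : ℝ)⁻¹ = ∑ v ∈ Finset.Ico 1 q, (v : ℝ)⁻¹ := by
    refine Finset.sum_nbij' (fun v => q - v) (fun v => q - v) ?_ ?_ ?_ ?_ ?_
    · intro v hv
      have := Finset.mem_Ico.1 hv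
      exact Finset.mem_Ico.2 (by omega)
    · intro v hv
      have := Finset.mem_Ico.1 hv
      exact Finset.mem_Ico.2 (by omega)
    · intro v hv
      have := Finset.mem_Ico.1 hv
      show q - (q - v) = v
      omega
    · intro v hv
      have := Finset.mem_Ico.1 hv
      show q - (q - v) = v
      omega
    · intro v _
      rfl
  have h3 : ∑ v ∈ Finset.Ico 1 q, (v : ℝ)⁻¹ = (harmonic (q - 1) : ℝ) := by
    rw [harmonic, Finset.sum_Ico_eq_sum_range]
    push_cast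
    refine Finset.sum_congr rfl fun v _ => ?_
    rw [add_comm]
  have h4 : (harmonic (q - 1) : ℝ) ≤ 1 + Real.log q := by
    refine (harmonic_le_one_add_log (q - 1)).trans ?_
    rcases Nat.eq_zero_or_pos (q - 1) with h | h
    · rw [h, Nat.cast_zero, Real.log_zero]
      have : 0 ≤ Real.log q := Real.log_nonneg (by exact_mod_cast hq)
      linarith
    · have : Real.log ((q - 1 : ℕ) : ℝ) ≤ Real.log q :=
        Real.log_le_log (by exact_mod_cast h) (by exact_mod_cast Nat.sub_le q 1)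
      linarith
  rw [h2, h3]
  have h5 : (0 : ℝ) < q := by exact_mod_cast hq
  nlinarith

theorem ek_sum (q : ℕ) [NeZero q] (c : ZMod q) (K0 K1 : ℝ) (h0 : ‖kz q 0 c‖ ≤ K0)
    (h1 : ∀ u, ‖kz q u c‖ ≤ K1) (M N : ℕ) :
    ‖∑ a ∈ Ioc M (M + N), ek q c a‖ ≤ N * K0 / q + K1 * (1 + Real.log q) := by
  classical
  have hq0 : (0 : ℝ) < q := Nat.cast_pos.2 (NeZero.pos q)
  have hqc : (q : ℂ) ≠ 0 := Nat.cast_ne_zero.2 (NeZero.ne q)
  have hK1 : 0 ≤ K1 := (norm_nonneg _).trans (h1 0)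
  have e1 : (q : ℂ) * ∑ a ∈ Ioc M (M + N), ek q c a = ∑ u : ZMod q, kz q u c *
      ∑ a ∈ Ioc M (M + N), (ZMod.stdAddChar (-(u * (a : ZMod q))) : ℂ) := by
    rw [Finset.mul_sum]
    simp_rw [ek_orth, Finset.mul_sum]
    rw [Finset.sum_comm]
  have e2 : ‖(q : ℂ) * ∑ a ∈ Ioc M (M + N), ek q c a‖ ≤ N * K0 + K1 * (q * (1 + Real.log q)) := by
    rw [e1, ← Finset.add_sum_erase _ _ (Finset.mem_univ (0 : ZMod q))]
    refine (norm_add_le _ _).trans (add_le_add ?_ ?_)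
    · rw [norm_mul]
      have h2 : ∑ a ∈ Ioc M (M + N), (ZMod.stdAddChar (-((0 : ZMod q) * (a : ZMod q))) : ℂ) =
          N := by
        simp
      rw [h2, mul_comm, Complex.norm_natCast]
      exact mul_le_mul_of_nonneg_left h0 (Nat.cast_nonneg N)
    · refine (norm_sum_le _ _).trans ?_
      refine le_trans ?_ (mul_le_mul_of_nonneg_left (ek_harm q) hK1)
      rw [Finset.mul_sum]
      refine Finset.sum_le_sum fun u hu => ?_
      rw [norm_mul]
      exact mul_le_mul (h1 u) (ek_geom q u (Finset.ne_of_mem_erase hu) M N) (norm_nonneg _) hK1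
  rw [norm_mul, Complex.norm_natCast] at e2
  have e3 : (N : ℝ) * K0 / q + K1 * (1 + Real.log q) =
      (N * K0 + K1 * (q * (1 + Real.log q))) / q := by
    field_simp
  rw [e3, le_div_iff₀ hq0, mul_comm]
  exact e2

end Pool.Agent.H11.KW
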