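import Pool.Agent.H11.KW.ZS
import Pool.Agent.H11.KW.ZI

/-!
# [H11 KW ZF] Incomplete Kloosterman sums modulo q1 q0, q1 squarefree

Proof.  `ek_sum` with `q = q1 q0`, `K0 = q0 g`, `K1 = q0 2^ω √q1 √g` (`kz_q0_zero`, `kz_q0`),
`N K0/q = N g / q1`; and `2^ω(q1) = (divisors q1).card` for squarefree `q1`
(`Nat.Squarefree`... or `2 ^ ω ≤ card divisors`: the subsets of the prime factors).
-/

namespace Pool.Agent.H11.KW

open Finset

theorem ek_bound (q1 q0 : ℕ) [NeZero q1] [NeZero q0] (hq : Squarefree q1)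
    (hc : Nat.Coprime q1 q0) (c : ZMod (q1 * q0)) (M N : ℕ) :
    ‖∑ a ∈ Ioc M (M + N), ek (q1 * q0) c a‖ ≤
      N * (Nat.gcd c.val q1 : ℝ) / q1 +
        q0 * q1.divisors.card * √(q1 : ℝ) * √(Nat.gcd c.val q1 : ℝ) *
          (1 + Real.log ((q1 * q0 : ℕ) : ℝ)) := by
  have hq1 : q1 ≠ 0 := NeZero.ne q1
  have hq0 : q0 ≠ 0 := NeZero.ne q0
  have hω : 2 ^ q1.primeFactors.card ≤ q1.divisors.card := by
    rw [Nat.card_divisors hq1, ← Finset.prod_const]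
    refine Finset.prod_le_prod' fun p hp => ?_
    have h1 : 0 < q1.factorization p :=
      (Nat.prime_of_mem_primeFactors hp).factorization_pos_of_dvd hq1
        (Nat.dvd_of_mem_primeFactors hp)
    omega
  have hω' : (2 : ℝ) ^ q1.primeFactors.card ≤ (q1.divisors.card : ℝ) := by exact_mod_cast hω
  have hmain := ek_sum (q1 * q0) c (q0 * (Nat.gcd c.val q1 : ℝ))
    (q0 * (2 ^ (q1.primeFactors.card) * √(q1 : ℝ) * √(Nat.gcd c.val q1 : ℝ)))
    (kz_q0_zero q1 q0 hq hc c) (fun u => kz_q0 q1 q0 hq hc u c) M N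
  refine hmain.trans (add_le_add (le_of_eq ?_) ?_)
  · have h1 : (q1 : ℝ) ≠ 0 := by exact_mod_cast hq1
    have h2 : (q0 : ℝ) ≠ 0 := by exact_mod_cast hq0
    push_cast
    field_simp
  · have hlog : 0 ≤ 1 + Real.log ((q1 * q0 : ℕ) : ℝ) := by
      have h1 : 0 ≤ Real.log ((q1 * q0 : ℕ) : ℝ) := Real.log_natCast_nonneg _
      linarith
    refine mul_le_mul_of_nonneg_right ?_ hlog
    have h1 : (q0 : ℝ) * (2 ^ q1.primeFactors.card * √(q1 : ℝ) * √(Nat.gcd c.val q1 : ℝ)) =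
        2 ^ q1.primeFactors.card * (q0 * √(q1 : ℝ) * √(Nat.gcd c.val q1 : ℝ)) := by ring
    have h2 : (q0 : ℝ) * q1.divisors.card * √(q1 : ℝ) * √(Nat.gcd c.val q1 : ℝ) =
        q1.divisors.card * (q0 * √(q1 : ℝ) * √(Nat.gcd c.val q1 : ℝ)) := by ring
    rw [h1, h2]
    exact mul_le_mul_of_nonneg_right hω' (by positivity)

end Pool.Agent.H11.KW
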