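import Pool.Agent.H11.KW.Defs

/-!
# [H11 KW ZM] Multiplicativity of Kloosterman sums

Proof.  Chinese remainder: `(ZMod (m n))ˣ ≃ (ZMod m)ˣ × (ZMod n)ˣ` (`ZMod.chineseRemainder`, `Units.mapEquiv`,
`MulEquiv.prodUnits`).  For `z : ZMod (m n)` with images `z1, z2`:
`stdAddChar z = stdAddChar (z1 * n⁻¹) * stdAddChar (z2 * m⁻¹)`: choose integers `a, b` with
`a n + b m = 1` (Bezout, `Int.gcd_eq_gcd_ab`), so `a = n⁻¹` in `ZMod m`, `b = m⁻¹` in `ZMod n`, and for an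
integer `k`: `k/(m n) = k a / m + k b / n`; `ZMod.stdAddChar_coe`: `stdAddChar (k : ZMod N) =
exp(2 π i k / N)`.  Apply to `z = u x + v x⁻¹`, and the sum over pairs factors.
-/

namespace Pool.Agent.H11.KW

open Finset

private theorem inv_of_bez {m n : ℕ} [NeZero m] (h : Nat.Coprime n m) {a b : ℤ}
    (hab : a * n + b * m = 1) : (n : ZMod m)⁻¹ = (a : ZMod m) := by
  have h1 : (n : ZMod m) * (n : ZMod m)⁻¹ = 1 := ZMod.coe_mul_inv_eq_one n h
  have h2 : (a : ZMod m) * (n : ZMod m) = 1 := by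
    have := congrArg (fun t : ℤ => (t : ZMod m)) hab
    push_cast at this
    simpa using this
  calc (n : ZMod m)⁻¹ = (a * n) * (n : ZMod m)⁻¹ := by rw [h2, one_mul]
    _ = a := by rw [mul_assoc, h1, mul_one]

theorem std_mul (m n : ℕ) [NeZero m] [NeZero n] (h : Nat.Coprime m n) (z : ZMod (m * n)) :
    (ZMod.stdAddChar z : ℂ) =
      ZMod.stdAddChar (ZMod.castHom (Dvd.intro n rfl) (ZMod m) z * (n : ZMod m)⁻¹) *
      ZMod.stdAddChar (ZMod.castHom (Dvd.intro_left m rfl) (ZMod n) z * (m : ZMod n)⁻¹) := by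
  obtain ⟨k, rfl⟩ := ZMod.intCast_surjective z
  have hbez : (Nat.gcdB m n) * (n : ℤ) + (Nat.gcdA m n) * (m : ℤ) = 1 := by
    have := Nat.gcd_eq_gcd_ab m n
    rw [h.gcd_eq_one] at this
    push_cast at this
    linarith
  have e1 : (n : ZMod m)⁻¹ = ((Nat.gcdB m n : ℤ) : ZMod m) := inv_of_bez h.symm hbez
  have e2 : (m : ZMod n)⁻¹ = ((Nat.gcdA m n : ℤ) : ZMod n) :=
    inv_of_bez (b := Nat.gcdB m n) h (by linarith)
  rw [map_intCast (ZMod.castHom (Dvd.intro n rfl) (ZMod m)),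
    map_intCast (ZMod.castHom (Dvd.intro_left m rfl) (ZMod n)), e1, e2, ← Int.cast_mul, ← Int.cast_mul, ZMod.stdAddChar_coe,
    ZMod.stdAddChar_coe, ZMod.stdAddChar_coe, ← Complex.exp_add]
  congr 1
  have hm : (m : ℂ) ≠ 0 := by exact_mod_cast NeZero.ne m
  have hn : (n : ℂ) ≠ 0 := by exact_mod_cast NeZero.ne n
  have hbez' : ((Nat.gcdB m n : ℤ) : ℂ) * (n : ℂ) + ((Nat.gcdA m n : ℤ) : ℂ) * (m : ℂ) = 1 := by
    exact_mod_cast hbez
  push_cast
  rw [div_add_div _ _ hm hn, div_eq_div_iff (mul_ne_zero hm hn) (mul_ne_zero hm hn)]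
  linear_combination (-(2 * (Real.pi : ℂ) * Complex.I * (k : ℂ) * (m : ℂ) * (n : ℂ))) * hbez'

private theorem crt_fst {m n : ℕ} (h : Nat.Coprime m n) (z : ZMod (m * n)) :
    (ZMod.chineseRemainder h z).1 = ZMod.castHom (Dvd.intro n rfl) (ZMod m) z := by
  have h1 : (RingHom.fst (ZMod m) (ZMod n)).comp (ZMod.chineseRemainder h).toRingHom =
      ZMod.castHom (Dvd.intro n rfl) (ZMod m) := Subsingleton.elim _ _
  exact congrArg (fun G : ZMod (m * n) →+* ZMod m => G z) h1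

private theorem crt_snd {m n : ℕ} (h : Nat.Coprime m n) (z : ZMod (m * n)) :
    (ZMod.chineseRemainder h z).2 = ZMod.castHom (Dvd.intro_left m rfl) (ZMod n) z := by
  have h1 : (RingHom.snd (ZMod m) (ZMod n)).comp (ZMod.chineseRemainder h).toRingHom =
      ZMod.castHom (Dvd.intro_left m rfl) (ZMod n) := Subsingleton.elim _ _
  exact congrArg (fun G : ZMod (m * n) →+* ZMod n => G z) h1

private noncomputable def eqv {m n : ℕ} (h : Nat.Coprime m n) :
    (ZMod (m * n))ˣ ≃* (ZMod m)ˣ × (ZMod n)ˣ :=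
  (Units.mapEquiv (ZMod.chineseRemainder h).toMulEquiv).trans MulEquiv.prodUnits

private theorem eqv_fst {m n : ℕ} (h : Nat.Coprime m n) (x : (ZMod (m * n))ˣ) :
    (((eqv h x).1 : (ZMod m)ˣ) : ZMod m) = ZMod.castHom (Dvd.intro n rfl) (ZMod m) (x : ZMod (m * n)) :=
  crt_fst h _

private theorem eqv_snd {m n : ℕ} (h : Nat.Coprime m n) (x : (ZMod (m * n))ˣ) :
    (((eqv h x).2 : (ZMod n)ˣ) : ZMod n) =
      ZMod.castHom (Dvd.intro_left m rfl) (ZMod n) (x : ZMod (m * n)) :=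
  crt_snd h _

theorem kz_mul (m n : ℕ) [NeZero m] [NeZero n] (h : Nat.Coprime m n) (u v : ZMod (m * n)) :
    kz (m * n) u v =
      kz m (ZMod.castHom (Dvd.intro n rfl) (ZMod m) u * (n : ZMod m)⁻¹)
        (ZMod.castHom (Dvd.intro n rfl) (ZMod m) v * (n : ZMod m)⁻¹) *
      kz n (ZMod.castHom (Dvd.intro_left m rfl) (ZMod n) u * (m : ZMod n)⁻¹)
        (ZMod.castHom (Dvd.intro_left m rfl) (ZMod n) v * (m : ZMod n)⁻¹) := by
  unfold kz
  rw [Finset.sum_mul_sum, ← Finset.sum_product', Finset.univ_product_univ]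
  refine Fintype.sum_equiv (eqv h).toEquiv _ _ fun x => ?_
  rw [std_mul m n h]
  have hx1 := eqv_fst h x
  have hx2 := eqv_snd h x
  have hy1 := eqv_fst h x⁻¹
  have hy2 := eqv_snd h x⁻¹
  rw [map_inv] at hy1 hy2
  simp only [MulEquiv.toEquiv_eq_coe, EquivLike.coe_coe]
  congr 2
  · rw [map_add, map_mul, map_mul, hx1]
    rw [Prod.fst_inv] at hy1
    rw [hy1]
    ring
  · rw [map_add, map_mul, map_mul, hx2]
    rw [Prod.snd_inv] at hy2
    rw [hy2]
    ring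

end Pool.Agent.H11.KW
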