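import Pool.Agent.H11.KW.Weil

/-!
# [H11 KW ZP] Kloosterman sums modulo a prime, all arguments

Proof.  `kz p u v = ∑_{x : (ZMod p)ˣ} stdAddChar (u x + v x⁻¹)`; `ZMod.stdAddChar` is a nontrivial additive
character (`ZMod.isPrimitive_stdAddChar`, `ZMod.stdAddChar_coe`), with values of norm 1.  Comparison with
`kf` (sum over all `x : ZMod p`, zero term removed): `kz p u v = kf stdAddChar u v`.
* `p = 2`: there is only one unit, norm `1`.
* `v = 0`: `Nat.gcd 0 p = p`, trivial bound `‖kz‖ ≤ p - 1 ≤ p ≤ 2 √p √p`.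
* `v ≠ 0`: `Nat.gcd v.val p = 1`.  `u = 0`: `∑_{x ≠ 0} e(v x⁻¹) = -1` (`x ↦ x⁻¹`, `AddChar.sum_eq_zero...`), norm
  `1 ≤ 2 √p`.  `u ≠ 0`, `p` odd: `weil`.
-/

namespace Pool.Agent.H11.KW

open Finset

private theorem zp_sum (p : ℕ) [Fact p.Prime] (g : ZMod p → ℂ) :
    ∑ x : (ZMod p)ˣ, g (x : ZMod p) = ∑ x : ZMod p, if x = 0 then 0 else g x := by
  classical
  have h1 : ∑ x : ZMod p, (if x = 0 then 0 else g x) =
      ∑ x ∈ (Finset.univ : Finset (ZMod p)).filter (fun x => x ≠ 0), g x := by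
    rw [Finset.sum_filter]
    refine Finset.sum_congr rfl fun x _ => ?_
    by_cases h : x = 0 <;> simp [h]
  rw [h1]
  refine Finset.sum_bij (fun (x : (ZMod p)ˣ) _ => (x : ZMod p)) ?_ ?_ ?_ ?_
  · intro x _
    rw [Finset.mem_filter]
    exact ⟨Finset.mem_univ _, x.ne_zero⟩
  · intro x _ y _ h
    exact Units.ext h
  · intro b hb
    rw [Finset.mem_filter] at hb
    exact ⟨Units.mk0 b hb.2, Finset.mem_univ _, rfl⟩
  · intro x _
    rfl

private theorem zp_triv (p : ℕ) [Fact p.Prime] (u v : ZMod p) :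
    ‖kz p u v‖ ≤ (p : ℝ) - 1 := by
  unfold kz
  refine (norm_sum_le _ _).trans ?_
  have h1 : ∀ x ∈ (Finset.univ : Finset (ZMod p)ˣ),
      ‖(ZMod.stdAddChar (u * (x : ZMod p) + v * ((x⁻¹ : (ZMod p)ˣ) : ZMod p)) : ℂ)‖ = 1 :=
    fun x _ => AddChar.norm_apply _ _
  rw [Finset.sum_congr rfl h1, Finset.sum_const, Finset.card_univ, ZMod.card_units, nsmul_eq_mul,
    mul_one, Nat.cast_sub (Fact.out (p := p.Prime)).one_le, Nat.cast_one]

private theorem zp_zero (p : ℕ) [Fact p.Prime] (v : ZMod p) (hv : v ≠ 0) : kz p 0 v = -1 := by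
  unfold kz
  have h1 : ∑ x : (ZMod p)ˣ, (ZMod.stdAddChar (0 * (x : ZMod p) +
      v * ((x⁻¹ : (ZMod p)ˣ) : ZMod p)) : ℂ) = ∑ x : (ZMod p)ˣ,
      (ZMod.stdAddChar ((x : ZMod p) * v) : ℂ) := by
    rw [← Equiv.sum_comp (Equiv.inv (ZMod p)ˣ)]
    refine Finset.sum_congr rfl fun x _ => ?_
    show (ZMod.stdAddChar (0 * ((x⁻¹ : (ZMod p)ˣ) : ZMod p) +
      v * (((x⁻¹)⁻¹ : (ZMod p)ˣ) : ZMod p)) : ℂ) = _
    rw [inv_inv, zero_mul, zero_add, mul_comm]
  rw [h1, zp_sum p (fun x => (ZMod.stdAddChar (x * v) : ℂ))]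
  have h2 := AddChar.sum_mulShift (R := ZMod p) (R' := ℂ) (ψ := ZMod.stdAddChar) v
    (ZMod.isPrimitive_stdAddChar p)
  rw [if_neg hv] at h2
  have h3 : ∑ x : ZMod p, (if x = 0 then 0 else (ZMod.stdAddChar (x * v) : ℂ)) =
      ∑ x : ZMod p, ((ZMod.stdAddChar (x * v) : ℂ) - if x = 0 then 1 else 0) := by
    refine Finset.sum_congr rfl fun x _ => ?_
    by_cases h : x = 0
    · rw [if_pos h, if_pos h, h, zero_mul, AddChar.map_zero_eq_one, sub_self]
    · rw [if_neg h, if_neg h, sub_zero]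
  rw [h3, Finset.sum_sub_distrib, Finset.sum_ite_eq' Finset.univ (0 : ZMod p),
    if_pos (Finset.mem_univ _)]
  have h4 : ∑ x : ZMod p, (ZMod.stdAddChar (x * v) : ℂ) = 0 := by
    exact_mod_cast h2
  rw [h4, zero_sub]

private theorem zp_kf (p : ℕ) [Fact p.Prime] (u v : ZMod p) :
    kz p u v = kf (ZMod.stdAddChar (N := p)) u v := by
  unfold kz kf
  have h := zp_sum p (fun x => (ZMod.stdAddChar (u * x + v * x⁻¹) : ℂ))
  have h2 : ∑ x : (ZMod p)ˣ, (ZMod.stdAddChar (u * (x : ZMod p) +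
      v * ((x⁻¹ : (ZMod p)ˣ) : ZMod p)) : ℂ) = ∑ x : (ZMod p)ˣ,
      (ZMod.stdAddChar (u * (x : ZMod p) + v * (x : ZMod p)⁻¹) : ℂ) := by
    refine Finset.sum_congr rfl fun x _ => ?_
    rw [Units.val_inv_eq_inv_val]
  rw [h2, h]
  refine Finset.sum_congr rfl fun x _ => ?_
  by_cases hx : x = 0 <;> simp [hx]

private theorem zp_gcd (p : ℕ) [Fact p.Prime] (v : ZMod p) (hv : v ≠ 0) :
    Nat.gcd v.val p = 1 := by
  have hp : p.Prime := Fact.out
  have h1 : ¬ p ∣ v.val := by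
    intro h
    have h2 : v.val ≠ 0 := fun h0 => hv ((ZMod.val_eq_zero v).1 h0)
    exact absurd (Nat.le_of_dvd (Nat.pos_of_ne_zero h2) h) (not_le.2 (ZMod.val_lt v))
  exact ((Nat.Prime.coprime_iff_not_dvd hp).2 h1).symm

theorem kz_prime (p : ℕ) [Fact p.Prime] (u v : ZMod p) :
    ‖kz p u v‖ ≤ 2 * √(p : ℝ) * √(Nat.gcd v.val p : ℝ) := by
  have hp : p.Prime := Fact.out
  have hp2 : (2 : ℝ) ≤ p := by exact_mod_cast hp.two_le
  have hs1 : (1 : ℝ) ≤ √(p : ℝ) := by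
    rw [Real.one_le_sqrt]
    linarith
  by_cases hv : v = 0
  · rw [hv, ZMod.val_zero, Nat.gcd_zero_left, mul_assoc, Real.mul_self_sqrt (by linarith)]
    exact (zp_triv p u 0).trans (by linarith)
  rw [zp_gcd p v hv, Nat.cast_one, Real.sqrt_one, mul_one]
  by_cases h2 : p = 2
  · refine (zp_triv p u v).trans ?_
    have : (p : ℝ) = 2 := by exact_mod_cast h2
    linarith
  by_cases hu : u = 0
  · rw [hu, zp_zero p v hv, norm_neg, norm_one]
    linarith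
  rw [zp_kf]
  refine weil h2 _ ?_ u v hu hv
  intro h
  have h3 := ZMod.isPrimitive_stdAddChar p (one_ne_zero (α := ZMod p))
  rw [h] at h3
  exact h3 (by ext x; simp)

theorem kz_prime_zero (p : ℕ) [Fact p.Prime] (v : ZMod p) :
    ‖kz p 0 v‖ ≤ (Nat.gcd v.val p : ℝ) := by
  have hp : p.Prime := Fact.out
  have hp2 : (2 : ℝ) ≤ p := by exact_mod_cast hp.two_le
  by_cases hv : v = 0
  · rw [hv, ZMod.val_zero, Nat.gcd_zero_left]
    exact (zp_triv p 0 0).trans (by linarith)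
  rw [zp_gcd p v hv, zp_zero p v hv, norm_neg, norm_one, Nat.cast_one]

end Pool.Agent.H11.KW
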