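import Pool.Agent.H11.KW.ZP
import Pool.Agent.H11.KW.ZM

/-!
# [H11 KW ZS] Kloosterman sums modulo q1 q0, q1 squarefree

Proof.  (1) Squarefree `q`: induction on the prime factors (`Nat.recOnPosPrimePosCoprime`, or strong
induction: `q = p m`, `p` the least prime factor, `p` coprime to `m`), `kz_mul`, `kz_prime`, `kz_prime_zero`;
multiplication of the argument by a unit does not change the gcd with the modulus, and
`gcd(v, m n) = gcd(v, m) gcd(v, n)` for coprime `m, n` (`Nat.Coprime.gcd_mul`), where the image of `v` in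
`ZMod m` has `gcd(·.val, m) = gcd(v.val, m)`.  `q = 1`: one unit, norm `1`.
(2) `q1 q0`: `kz_mul`, the factor modulo `q0` has at most `q0` terms of norm 1.
-/

namespace Pool.Agent.H11.KW

open Finset

private theorem gcd_unit {N : ℕ} [NeZero N] (a : ZMod N) (c : (ZMod N)ˣ) :
    Nat.gcd (a * (c : ZMod N)).val N = Nat.gcd a.val N := by
  have hc : Nat.Coprime (c : ZMod N).val N := ZMod.val_coe_unit_coprime c
  rw [ZMod.val_mul, ← Nat.gcd_rec, Nat.Coprime.gcd_mul_right_cancel_right _ hc, Nat.gcd_comm]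

private theorem gcd_unit' {N k : ℕ} [NeZero N] (h : Nat.Coprime k N) (a : ZMod N) :
    Nat.gcd (a * (k : ZMod N)⁻¹).val N = Nat.gcd a.val N := by
  have h1 : (k : ZMod N)⁻¹ = (((ZMod.unitOfCoprime k h)⁻¹ : (ZMod N)ˣ) : ZMod N) := by
    rw [← ZMod.coe_unitOfCoprime k h, ZMod.inv_coe_unit]
  rw [h1, gcd_unit]

private theorem gcd_castl (m n : ℕ) [NeZero m] [NeZero n] (z : ZMod (m * n)) :
    Nat.gcd (ZMod.castHom (Dvd.intro n rfl) (ZMod m) z).val m = Nat.gcd z.val m := by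
  rw [ZMod.castHom_apply, ZMod.cast_eq_val, ZMod.val_natCast, ← Nat.gcd_rec, Nat.gcd_comm]

private theorem gcd_castr (m n : ℕ) [NeZero m] [NeZero n] (z : ZMod (m * n)) :
    Nat.gcd (ZMod.castHom (Dvd.intro_left m rfl) (ZMod n) z).val n = Nat.gcd z.val n := by
  rw [ZMod.castHom_apply, ZMod.cast_eq_val, ZMod.val_natCast, ← Nat.gcd_rec, Nat.gcd_comm]

private theorem kz_triv (q : ℕ) [NeZero q] (u v : ZMod q) : ‖kz q u v‖ ≤ q := by
  unfold kz
  refine (norm_sum_le _ _).trans ?_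
  have h1 : ∀ x ∈ (Finset.univ : Finset (ZMod q)ˣ),
      ‖ZMod.stdAddChar (u * (x : ZMod q) + v * ((x⁻¹ : (ZMod q)ˣ) : ZMod q))‖ ≤ (1 : ℝ) :=
    fun x _ => (AddChar.norm_apply _ _).le
  refine (Finset.sum_le_card_nsmul _ _ _ h1).trans ?_
  rw [nsmul_eq_mul, mul_one, Finset.card_univ, ZMod.card_units_eq_totient]
  exact_mod_cast Nat.totient_le q

private theorem kz_one (q : ℕ) [NeZero q] (hq : q = 1) (u v : ZMod q) : ‖kz q u v‖ ≤ 1 := by
  have h1 := kz_triv q u v
  have h2 : (q : ℝ) = 1 := by exact_mod_cast hq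
  exact h1.trans h2.le

private theorem sqf_aux (n : ℕ) : ∀ (q : ℕ) [NeZero q], q ≤ n → Squarefree q → ∀ u v : ZMod q,
    ‖kz q u v‖ ≤ 2 ^ (q.primeFactors.card) * √(q : ℝ) * √(Nat.gcd v.val q : ℝ) ∧
    ‖kz q 0 v‖ ≤ (Nat.gcd v.val q : ℝ) := by
  induction n with
  | zero => intro q _ hq; exact absurd (Nat.le_zero.1 hq) (NeZero.ne q)
  | succ n ih =>
    intro q _ hqn hq u v
    rcases eq_or_ne q 1 with h1 | h1
    · have hg : Nat.gcd v.val q = 1 := by
        have e1 := Nat.le_of_dvd (by omega) (Nat.gcd_dvd_right v.val q)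
        have e2 := Nat.gcd_pos_of_pos_right v.val (show 0 < q by omega)
        omega
      refine ⟨(kz_one q h1 u v).trans ?_, (kz_one q h1 0 v).trans ?_⟩
      · rw [hg, h1]; simp
      · rw [hg]; simp
    · obtain ⟨p, hp, m, rfl⟩ := Nat.exists_prime_and_dvd h1
      haveI : Fact p.Prime := ⟨hp⟩
      have hm0 : m ≠ 0 := by
        rintro rfl
        exact NeZero.ne (p * 0) (by simp)
      haveI : NeZero m := ⟨hm0⟩
      haveI : NeZero p := ⟨hp.ne_zero⟩
      have hcop : Nat.Coprime p m := Nat.coprime_of_squarefree_mul hq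
      have hsm : Squarefree m := hq.of_mul_right
      have hmn : m ≤ n := by
        have h2 := hp.two_le
        have h3 : 2 * m ≤ p * m := Nat.mul_le_mul_right m h2
        have h4 : 1 ≤ m := Nat.one_le_iff_ne_zero.2 hm0
        omega
      have hg : Nat.gcd v.val (p * m) = Nat.gcd v.val p * Nat.gcd v.val m :=
        Nat.Coprime.gcd_mul v.val hcop
      have g1 : Nat.gcd (ZMod.castHom (Dvd.intro m rfl) (ZMod p) v * (m : ZMod p)⁻¹).val p =
          Nat.gcd v.val p := by rw [gcd_unit' hcop.symm, gcd_castl]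
      have g2 : Nat.gcd (ZMod.castHom (Dvd.intro_left p rfl) (ZMod m) v * (p : ZMod m)⁻¹).val m =
          Nat.gcd v.val m := by rw [gcd_unit' hcop, gcd_castr]
      constructor
      · rw [kz_mul p m hcop, norm_mul]
        have a1 := kz_prime p (ZMod.castHom (Dvd.intro m rfl) (ZMod p) u * (m : ZMod p)⁻¹)
          (ZMod.castHom (Dvd.intro m rfl) (ZMod p) v * (m : ZMod p)⁻¹)
        have a2 := (ih m hmn hsm (ZMod.castHom (Dvd.intro_left p rfl) (ZMod m) u * (p : ZMod m)⁻¹)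
          (ZMod.castHom (Dvd.intro_left p rfl) (ZMod m) v * (p : ZMod m)⁻¹)).1
        rw [g1] at a1
        rw [g2] at a2
        refine (mul_le_mul a1 a2 (norm_nonneg _) (by positivity)).trans (le_of_eq ?_)
        have hcard : (p * m).primeFactors.card = m.primeFactors.card + 1 := by
          rw [Nat.primeFactors_mul hp.ne_zero hm0, Finset.card_union_of_disjoint
            hcop.disjoint_primeFactors, hp.primeFactors, Finset.card_singleton, add_comm]
        rw [hcard, hg]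
        push_cast
        rw [Real.sqrt_mul (by positivity), Real.sqrt_mul (by positivity), pow_succ]
        ring
      · rw [kz_mul p m hcop, norm_mul, map_zero, map_zero, zero_mul, zero_mul]
        have a1 := kz_prime_zero p
          (ZMod.castHom (Dvd.intro m rfl) (ZMod p) v * (m : ZMod p)⁻¹)
        have a2 := (ih m hmn hsm 0
          (ZMod.castHom (Dvd.intro_left p rfl) (ZMod m) v * (p : ZMod m)⁻¹)).2
        rw [g1] at a1
        rw [g2] at a2
        refine (mul_le_mul a1 a2 (norm_nonneg _) (by positivity)).trans (le_of_eq ?_)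
        rw [hg]
        push_cast
        ring

theorem kz_sqf (q : ℕ) [NeZero q] (hq : Squarefree q) (u v : ZMod q) :
    ‖kz q u v‖ ≤ 2 ^ (q.primeFactors.card) * √(q : ℝ) * √(Nat.gcd v.val q : ℝ) :=
  (sqf_aux q q le_rfl hq u v).1

theorem kz_sqf_zero (q : ℕ) [NeZero q] (hq : Squarefree q) (v : ZMod q) :
    ‖kz q 0 v‖ ≤ (Nat.gcd v.val q : ℝ) :=
  (sqf_aux q q le_rfl hq 0 v).2

theorem kz_q0 (q1 q0 : ℕ) [NeZero q1] [NeZero q0] (hq : Squarefree q1) (hc : Nat.Coprime q1 q0)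
    (u v : ZMod (q1 * q0)) :
    ‖kz (q1 * q0) u v‖ ≤
      q0 * (2 ^ (q1.primeFactors.card) * √(q1 : ℝ) * √(Nat.gcd v.val q1 : ℝ)) := by
  rw [kz_mul q1 q0 hc, norm_mul, mul_comm (q0 : ℝ)]
  refine mul_le_mul ?_ (kz_triv q0 _ _) (norm_nonneg _) (by positivity)
  have h1 := kz_sqf q1 hq (ZMod.castHom (Dvd.intro q0 rfl) (ZMod q1) u * (q0 : ZMod q1)⁻¹)
    (ZMod.castHom (Dvd.intro q0 rfl) (ZMod q1) v * (q0 : ZMod q1)⁻¹)
  rwa [gcd_unit' hc.symm, gcd_castl] at h1

theorem kz_q0_zero (q1 q0 : ℕ) [NeZero q1] [NeZero q0] (hq : Squarefree q1)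
    (hc : Nat.Coprime q1 q0) (v : ZMod (q1 * q0)) :
    ‖kz (q1 * q0) 0 v‖ ≤ q0 * (Nat.gcd v.val q1 : ℝ) := by
  rw [kz_mul q1 q0 hc, norm_mul, map_zero, zero_mul, mul_comm (q0 : ℝ)]
  refine mul_le_mul ?_ (kz_triv q0 _ _) (norm_nonneg _) (by positivity)
  have h1 := kz_sqf_zero q1 hq (ZMod.castHom (Dvd.intro q0 rfl) (ZMod q1) v * (q0 : ZMod q1)⁻¹)
  rwa [gcd_unit' hc.symm, gcd_castl] at h1

end Pool.Agent.H11.KW
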